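import Mathlib
import Pool.Agent.Lib.MP_938ce2_ag_h85.Defs

/-!
# Tate classes on powers of an abelian variety with complex multiplication

`E` is a CM field, `Γ` the Galois group of its Galois closure, `X` the set of embeddings of `E`, on
which `Γ` acts, `c ∈ Γ` complex conjugation. The cohomology algebra of an abelian variety is the
exterior algebra of its `H¹`.
-/

set_option autoImplicit false

namespace Pool.Agent.Lib.MP_938ce2_ag_h60

open Pool.Agent.Lib.MP_938ce2_ag_h85 (HasDegree ActsBy GeneratedBy Coh actH1)

variable (F : Type) [Field F] {Γ : Type} [Group Γ] {X : Type} [MulAction Γ X]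

/-- `Φ` is a CM type: it contains exactly one embedding of each pair `{x, c x}` of complex conjugate
embeddings. -/
def CMType (c : Γ) (Φ : Finset X) : Prop := ∀ x : X, x ∈ Φ ↔ c • x ∉ Φ

variable (Γ) [Fintype Γ]

open Classical in
/-- The reflex norm of the CM type `Φ`: the value at the embedding `x` of `E` of the reflex norm of
the element `a` of the torus `(L ⊗ F)^×`, given by its values `a γ`, `γ ∈ Γ`, where `L` is the Galois
closure of `E`. It is the product of the `a γ` with `x ∈ γ Φ`. -/
noncomputable def reflex (Φ : Finset X) (a : Γ → Fˣ) (x : X) : Fˣ :=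
  ∏ γ ∈ Finset.univ.filter (fun γ : Γ => γ⁻¹ • x ∈ Φ), a γ

/-- The norm of the element `a` of the torus `(L ⊗ F)^×`. -/
def normG (a : Γ → Fˣ) : Fˣ := ∏ γ, a γ

/-- A Tate class of codimension `j` on `Aⁿ`, where `A` has complex multiplication by `E` with CM
type `Φ`: a class of degree `2j` on which the image of the reflex norm acts by the `j`-th power of the
norm. -/
def TateClass (Φ : Finset X) (n j : ℕ) (x : Coh F X n) : Prop :=
  HasDegree (2 * j) x ∧
  ∀ a : Γ → Fˣ, ActsBy (actH1 F n (reflex F Γ Φ a)) ((normG F Γ a : F) ^ j) x

/-- On every power of `A` the Tate classes are generated by those of codimension one. -/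
def GeneratedByDivisors (Φ : Finset X) : Prop :=
  ∀ (F : Type) [Field F] [CharZero F] (n j : ℕ) (x : Coh F X n),
    TateClass F Γ Φ n j x → GeneratedBy (fun y => TateClass F Γ Φ n 1 y) x

end Pool.Agent.Lib.MP_938ce2_ag_h60
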