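import Mathlib
import Pool.Agent.Lib.MP_938ce2_ag_h60.GDefs
import Pool.Agent.Lib.MP_938ce2_ag_h85.Crit

/-!
Monomial Tate classes; nondegenerate CM types.
-/

set_option autoImplicit false
set_option linter.unusedSectionVars false

namespace Pool.Agent.Lib.MP_938ce2_ag_h60

open Module
open Pool.Agent.Lib.MP_938ce2_ag_h85 (HasDegree ActsBy GeneratedBy Coh actH1 mB diagMap mult
  repr_map_diag map_diag_mB mB_mem mB_card mB_mul_of_disjoint)

section

variable {Γ : Type} [Group Γ] [Fintype Γ] {X : Type} [MulAction Γ X] [Fintype X] [DecidableEq X]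
variable (F : Type) [Field F] {I : Type} [LinearOrder I] [Fintype I] (π : I → X)

variable (Γ) in
/-- Tate classes, general index set -/
def TateG (Φ : Finset X) (j : ℕ) (x : ExteriorAlgebra F (I → F)) : Prop :=
  x ∈ ⋀[F]^(2 * j) (I → F) ∧ ∀ a : Γ → Fˣ,
    ExteriorAlgebra.map (diagMap F fun p => (reflex F Γ Φ a (π p) : F)) x
      = (normG F Γ a : F) ^ j • x

lemma coe_normG (a : Γ → Fˣ) : (normG F Γ a : F) = ∏ τ, (a τ : F) := Units.coe_prod _ _

lemma coe_reflex (Φ : Finset X) (a : Γ → Fˣ) (x : X) :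
    (reflex F Γ Φ a x : F) = ∏ γ, if γ⁻¹ • x ∈ Φ then (a γ : F) else 1 := by
  classical
  unfold reflex
  rw [Units.coe_prod, Finset.prod_filter]
  refine Finset.prod_congr rfl fun γ _ => ?_
  split_ifs <;> rfl

variable {F} {π}

lemma mult_disjUnion {s t : Finset I} (h : Disjoint s t) (σ : X) :
    mult π (s ∪ t) σ = mult π s σ + mult π t σ := by
  unfold mult
  rw [Finset.filter_union, Finset.card_union_of_disjoint]
  exact Finset.disjoint_filter_filter h

/-- the number of elements of a monomial over `γ Φ` -/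
lemma sum_mult (s : Finset I) (Φ : Finset X) (γ : Γ) :
    ∑ φ ∈ Φ, mult π s (γ • φ) = (s.filter fun p => γ⁻¹ • π p ∈ Φ).card := by
  unfold mult
  rw [← Finset.card_biUnion]
  · congr 1
    ext p
    simp only [Finset.mem_biUnion, Finset.mem_filter]
    constructor
    · rintro ⟨σ, h1, h2, h3⟩
      refine ⟨h2, ?_⟩
      rw [h3, inv_smul_smul]
      exact h1
    · rintro ⟨h1, h2⟩
      exact ⟨γ⁻¹ • π p, h2, h1, (smul_inv_smul γ (π p)).symm⟩
  · intro x _ y _ hxy
    rw [Function.onFun, Finset.disjoint_left]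
    intro p hp hq
    rw [Finset.mem_filter] at hp hq
    exact hxy (smul_left_cancel γ (hp.2.symm.trans hq.2))

/-- product of the reflex norm over a monomial -/
lemma prod_reflex (Φ : Finset X) (a : Γ → Fˣ) (s : Finset I) :
    ∏ p ∈ s, (reflex F Γ Φ a (π p) : F) = ∏ γ, (a γ : F) ^ (∑ φ ∈ Φ, mult π s (γ • φ)) := by
  rw [Finset.prod_congr rfl fun p _ => coe_reflex F Φ a (π p)]
  rw [Finset.prod_comm]
  refine Finset.prod_congr rfl fun γ _ => ?_
  rw [sum_mult, Finset.prod_ite, Finset.prod_const, Finset.prod_const_one, mul_one]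

/-- weights occurring in a Tate class -/
lemma TateG.coord [CharZero F] {Φ : Finset X} {j : ℕ} {x : ExteriorAlgebra F (I → F)}
    (hx : TateG Γ F π Φ j x) {s : Finset I} (hs : (mB F).repr x s ≠ 0) (τ : Γ) :
    ∑ φ ∈ Φ, mult π s (τ • φ) = j := by
  classical
  have h2 : (2 : F) ≠ 0 := two_ne_zero
  set a : Γ → Fˣ := fun σ => if σ = τ then Units.mk0 2 h2 else 1 with ha
  have h := congrArg (fun y => (mB F).repr y s) (hx.2 a)
  simp only [repr_map_diag, map_smul, Finsupp.smul_apply, smul_eq_mul] at h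
  have h3 := mul_right_cancel₀ hs h
  rw [prod_reflex, coe_normG] at h3
  have e1 : ∀ f : Γ → ℕ, ∏ σ, (a σ : F) ^ f σ = 2 ^ f τ := by
    intro f
    rw [Finset.prod_eq_single τ]
    · simp [ha]
    · intro σ _ hσ
      simp [ha, hσ]
    · intro h; exact absurd (Finset.mem_univ _) h
  have e2 : ∏ σ, (a σ : F) = 2 := by
    have := e1 fun _ => 1
    simpa using this
  rw [e1, e2] at h3
  have h4 : (2 : ℕ) ^ (∑ φ ∈ Φ, mult π s (τ • φ)) = 2 ^ j := by exact_mod_cast h3
  exact Nat.pow_right_injective le_rfl h4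

/-- a criterion for a monomial to be a Tate class -/
lemma tateG_mB {Φ : Finset X} {j : ℕ} {s : Finset I} (hc : s.card = 2 * j)
    (h : ∀ τ : Γ, ∑ φ ∈ Φ, mult π s (τ • φ) = j) : TateG Γ F π Φ j (mB F s) := by
  refine ⟨?_, fun a => ?_⟩
  · rw [← hc]; exact mB_mem F s
  · rw [map_diag_mB, prod_reflex, coe_normG]
    congr 1
    rw [Finset.prod_congr rfl fun τ _ => by rw [h τ], Finset.prod_pow]

variable {c : Γ} {Φ : Finset X}

lemma smul_smul_self (hc2 : c * c = 1) (x : X) : c • c • x = x := by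
  rw [smul_smul, hc2, one_smul]

lemma sum_type (hc2 : c * c = 1) (hΦ : CMType c Φ) {M : Type} [AddCommMonoid M] (f : X → M) :
    ∑ σ ∈ Φ, f σ + ∑ σ ∈ Φ, f (c • σ) = ∑ σ, f σ := by
  have h1 : ∑ σ ∈ Φ, f (c • σ) = ∑ σ ∈ Finset.univ.filter (fun σ => σ ∉ Φ), f σ := by
    refine Finset.sum_nbij' (fun σ => c • σ) (fun σ => c • σ) ?_ ?_ ?_ ?_ ?_
    · intro σ hσ
      rw [Finset.mem_filter]
      exact ⟨Finset.mem_univ _, (hΦ σ).mp hσ⟩
    · intro σ hσ
      rw [Finset.mem_filter] at hσ
      rw [hΦ, smul_smul_self hc2]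
      exact hσ.2
    · intro σ _; exact smul_smul_self hc2 σ
    · intro σ _; exact smul_smul_self hc2 σ
    · intro σ _; rfl
  rw [h1]
  have := Finset.sum_filter_add_sum_filter_not Finset.univ (fun σ => σ ∈ Φ) f
  rw [← this]
  congr 1
  simp

lemma card_cmType (hc2 : c * c = 1) (hΦ : CMType c Φ) : 2 * Φ.card = Fintype.card X := by
  have h := sum_type hc2 hΦ (fun _ => (1 : ℕ))
  simp at h
  rw [two_mul]
  simpa using h

lemma mult_pair {x : X} {p q : I} (hpx : π p = x) (hq : π q = c • x) (hne : c • x ≠ x) (σ : X) :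
    mult π {p, q} σ = (if x = σ then 1 else 0) + (if c • x = σ then 1 else 0) := by
  unfold mult
  rw [Finset.filter_insert, Finset.filter_singleton, hpx, hq]
  split_ifs with a b b
  · exact absurd (b.trans a.symm) hne
  · simp
  · simp
  · simp

/-- the pair class is a Tate class of codimension one -/
lemma tateG_pair (hcc : ∀ γ : Γ, c * γ = γ * c) (hc2 : c * c = 1) (hcx : ∀ x : X, c • x ≠ x)
    (hΦ : CMType c Φ) {p q : I} (hpq : π q = c • π p) : TateG Γ F π Φ 1 (mB F {p, q}) := by
  have hne : p ≠ q := by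
    rintro rfl
    exact hcx _ hpq.symm
  refine tateG_mB (by rw [Finset.card_pair hne]) fun τ => ?_
  simp only [mult_pair (π := π) rfl hpq (hcx _), Finset.sum_add_distrib]
  have h2 := sum_type hc2 hΦ (fun σ => if π p = τ • σ then 1 else 0)
  have h3 : ∑ φ ∈ Φ, (if c • π p = τ • φ then 1 else 0)
      = ∑ φ ∈ Φ, (if π p = τ • (c • φ) then 1 else 0) := by
    refine Finset.sum_congr rfl fun φ _ => ?_
    congr 1
    rw [eq_iff_iff]
    constructor
    · intro h
      rw [smul_smul, ← hcc, ← smul_smul, ← h, smul_smul_self hc2]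
    · intro h
      rw [h, smul_smul τ, ← hcc, ← smul_smul, smul_smul_self hc2]
  rw [h3]
  refine h2.trans ?_
  rw [Finset.sum_eq_single (τ⁻¹ • π p)]
  · simp
  · intro b _ hb
    rw [if_neg]
    intro h
    apply hb
    rw [h, inv_smul_smul]
  · intro h; exact absurd (Finset.mem_univ _) h

/-- symmetric monomials are generated in codimension one -/
theorem mem_adjoin_of_symm (hcc : ∀ γ : Γ, c * γ = γ * c) (hc2 : c * c = 1)
    (hcx : ∀ x : X, c • x ≠ x) (hΦ : CMType c Φ) (k : ℕ) :
    ∀ s : Finset I, s.card = k → (∀ σ, mult π s σ = mult π s (c • σ)) →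
      mB F s ∈ Algebra.adjoin F {y | TateG Γ F π Φ 1 y} := by
  induction k using Nat.strong_induction_on with
  | _ k ih =>
    intro s hs hf
    rcases s.eq_empty_or_nonempty with rfl | ⟨p, hp⟩
    · have : mB F (∅ : Finset I) = 1 := by
        rw [mB_card F ∅ rfl]
        exact ExteriorAlgebra.ιMulti_zero_apply _
      rw [this]
      exact one_mem _
    · have h1 : 0 < mult π s (π p) := Finset.card_pos.mpr ⟨p, Finset.mem_filter.mpr ⟨hp, rfl⟩⟩
      rw [hf] at h1
      obtain ⟨q, hq⟩ := Finset.card_pos.mp h1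
      rw [Finset.mem_filter] at hq
      have hne : p ≠ q := by
        rintro rfl
        exact hcx _ hq.2.symm
      have hsub : ({p, q} : Finset I) ⊆ s := by
        intro x hx
        rw [Finset.mem_insert, Finset.mem_singleton] at hx
        rcases hx with rfl | rfl
        · exact hp
        · exact hq.1
      have hd : Disjoint ({p, q} : Finset I) (s \ {p, q}) := Finset.disjoint_sdiff
      have hu : ({p, q} : Finset I) ∪ (s \ {p, q}) = s := Finset.union_sdiff_of_subset hsub
      obtain ⟨d, hd0, hmul⟩ := mB_mul_of_disjoint F hd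
      rw [hu] at hmul
      have hcard : (s \ {p, q}).card < k := by
        rw [Finset.card_sdiff_of_subset hsub, Finset.card_pair hne, hs]
        have := Finset.card_le_card hsub
        rw [Finset.card_pair hne, hs] at this
        omega
      have hpair : ∀ σ, mult π {p, q} σ = mult π {p, q} (c • σ) := by
        intro σ
        rw [mult_pair (π := π) rfl hq.2 (hcx _), mult_pair (π := π) rfl hq.2 (hcx _), add_comm]
        congr 1
        · congr 1
          rw [eq_iff_iff]
          constructor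
          · intro h; rw [← h, smul_smul_self hc2]
          · intro h; rw [h, smul_smul_self hc2]
        · congr 1
          rw [eq_iff_iff, smul_left_cancel_iff]
      have hrec := ih _ hcard (s \ {p, q}) rfl fun σ => by
        have h3 := mult_disjUnion (π := π) hd σ
        have h4 := mult_disjUnion (π := π) hd (c • σ)
        rw [hu] at h3 h4
        have h5 := hf σ
        have h6 := hpair σ
        omega
      have h7 : mB F s = d⁻¹ • (mB F {p, q} * mB F (s \ {p, q})) := by
        rw [hmul, smul_smul, inv_mul_cancel₀ hd0, one_smul]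
      have h8 : mB F {p, q} ∈ Algebra.adjoin F {y | TateG Γ F π Φ 1 y} :=
        Algebra.subset_adjoin (Set.mem_ofPred.mpr (tateG_pair hcc hc2 hcx hΦ hq.2))
      rw [h7]
      exact Subalgebra.smul_mem _ (mul_mem h8 hrec) _

end

section

variable {Γ : Type} [Group Γ] [Fintype Γ] {X : Type} [MulAction Γ X] [Fintype X]
variable {c : Γ} {Φ : Finset X}

/-- The CM type is nondegenerate: an odd integral function on the embeddings whose sum over each
`γ Φ` vanishes is zero. -/
def Nondeg (c : Γ) (Φ : Finset X) : Prop :=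
  ∀ h : X → ℤ, (∀ x, h (c • x) = - h x) → (∀ γ : Γ, ∑ φ ∈ Φ, h (γ • φ) = 0) → ∀ x, h x = 0

theorem generatedByDivisors_of_nondeg (hcc : ∀ γ : Γ, c * γ = γ * c) (hc2 : c * c = 1)
    (hcx : ∀ x : X, c • x ≠ x) (hΦ : CMType c Φ) (hnd : Nondeg c Φ) :
    GeneratedByDivisors Γ Φ := by
  classical
  intro F _ _ n j x hx
  let _ : LinearOrder (Fin n × X) :=
    LinearOrder.lift' (Fintype.equivFin (Fin n × X)) (Equiv.injective _)
  have hx' : TateG Γ F (Prod.snd : Fin n × X → X) Φ j x := hx
  change x ∈ Algebra.adjoin F {y | TateG Γ F (Prod.snd : Fin n × X → X) Φ 1 y}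
  refine Pool.Agent.Lib.MP_938ce2_ag_h85.mem_adjoin_of_coord fun s hs => ?_
  refine mem_adjoin_of_symm hcc hc2 hcx hΦ _ s rfl fun σ => ?_
  have h1 := hnd (fun y => (mult (Prod.snd : Fin n × X → X) s y : ℤ)
    - mult (Prod.snd : Fin n × X → X) s (c • y)) (fun y => by
      rw [smul_smul_self hc2]; ring) (fun γ => by
      rw [Finset.sum_sub_distrib]
      have h2 := hx'.coord hs γ
      have h3 := hx'.coord hs (c * γ)
      have h4 : ∑ φ ∈ Φ, (mult (Prod.snd : Fin n × X → X) s (γ • φ) : ℤ) = j := by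
        exact_mod_cast h2
      have h5 : ∑ φ ∈ Φ, (mult (Prod.snd : Fin n × X → X) s (c • γ • φ) : ℤ) = j := by
        have : ∑ φ ∈ Φ, mult (Prod.snd : Fin n × X → X) s (c • γ • φ) = j := by
          rw [← h3]
          exact Finset.sum_congr rfl fun φ _ => by rw [smul_smul]
        exact_mod_cast this
      rw [h4, h5, sub_self]) σ
  omega

end

end Pool.Agent.Lib.MP_938ce2_ag_h60
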