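import Mathlib
import Pool.Agent.Lib.MP_938ce2_ag_h60.GDefs

/-!
# The embeddings of CM fields

`L` is a Galois CM number field and `E i` are CM number fields with embeddings in `L`. The Galois
group of `L` acts on the set of the embeddings of the `E i` in `L`, that is of the embeddings of the CM
algebra `∏ i, E i`.
-/

set_option autoImplicit false

namespace Pool.Agent.Lib.MP_938ce2_ag_h60

open NumberField NumberField.ComplexEmbedding

/-- The Galois group of `L` acts on the embeddings of `E` in `L` by composition. -/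
instance embAction (L E : Type) [Field L] [CharZero L] [Field E] [CharZero E] :
    MulAction (L ≃ₐ[ℚ] L) (E →ₐ[ℚ] L) where
  smul γ φ := (γ : L →ₐ[ℚ] L).comp φ
  one_smul φ := by ext x; rfl
  mul_smul γ δ φ := by ext x; rfl

/-- complex conjugation as an element of the Galois group of the CM field `L` -/
noncomputable def conj (L : Type) [Field L] [NumberField L] [IsCMField L] : L ≃ₐ[ℚ] L :=
  (IsCMField.complexConj L).restrictScalars ℚ

/-- The embeddings in `L` of the algebra `∏ i, E i`. -/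
abbrev Emb (L : Type) [Field L] [CharZero L] {ι : Type} (E : ι → Type) [∀ i, Field (E i)]
    [∀ i, CharZero (E i)] : Type := Σ i, (E i →ₐ[ℚ] L)

section

variable {L : Type} [Field L] [NumberField L]

@[simp]
lemma smul_apply' {E : Type} [Field E] [CharZero E] (γ : L ≃ₐ[ℚ] L) (φ : E →ₐ[ℚ] L) (x : E) :
    (γ • φ) x = γ (φ x) := rfl

section conj

variable [IsCMField L]

lemma conj_apply (x : L) : conj L x = IsCMField.complexConj L x := rfl

lemma conj_comm (γ : L ≃ₐ[ℚ] L) : conj L * γ = γ * conj L := by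
  ext x
  obtain ⟨φ⟩ : Nonempty (L →+* ℂ) := inferInstance
  apply φ.injective
  have h1 := IsCMField.complexEmbedding_complexConj L (φ.comp (γ : L →+* L)) x
  have h2 := IsCMField.complexEmbedding_complexConj L φ (γ x)
  exact h2.trans h1.symm

lemma conj_mul_self : conj L * conj L = 1 := by
  ext x
  exact IsCMField.complexConj_apply_apply L x

lemma conj_smul_ne {E : Type} [Field E] [NumberField E] [IsTotallyComplex E] (φ : E →ₐ[ℚ] L) :
    conj L • φ ≠ φ := by
  intro h
  obtain ⟨ψ⟩ : Nonempty (L →+* ℂ) := inferInstance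
  apply IsTotallyComplex.complexEmbedding_not_isReal (ψ.comp (φ : E →+* L))
  rw [isReal_iff]
  ext x
  have h1 : conj L (φ x) = φ x := DFunLike.congr_fun h x
  have h2 := IsCMField.complexEmbedding_complexConj L ψ (φ x)
  rw [conj_apply] at h1
  rw [h1] at h2
  exact h2.symm

lemma conj_smul_ne' {ι : Type} {E : ι → Type} [∀ i, Field (E i)] [∀ i, NumberField (E i)]
    [∀ i, IsTotallyComplex (E i)] (x : Emb L E) : conj L • x ≠ x := by
  obtain ⟨i, φ⟩ := x
  intro h
  have h1 : (⟨i, conj L • φ⟩ : Emb L E) = ⟨i, φ⟩ := h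
  rw [Sigma.mk.injEq] at h1
  exact conj_smul_ne φ (eq_of_heq h1.2)

end conj

/-! ### Transitivity and cardinalities -/

section card

variable [IsGalois ℚ L]

lemma splits_of_emb {E : Type} [Field E] [NumberField E] (φ : E →ₐ[ℚ] L) (x : E) :
    ((minpoly ℚ x).map (algebraMap ℚ L)).Splits := by
  have h1 : minpoly ℚ (φ x) = minpoly ℚ x := minpoly.algHom_eq φ (φ : E →+* L).injective x
  rw [← h1]
  exact (inferInstance : Normal ℚ L).splits (φ x)

/-- the Galois group acts transitively on the embeddings of a field -/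
theorem exists_smul_emb {E : Type} [Field E] [NumberField E] (φ ψ : E →ₐ[ℚ] L) :
    ∃ γ : L ≃ₐ[ℚ] L, γ • φ = ψ := by
  let pb := Field.powerBasisOfFiniteOfSeparable ℚ E
  have h1 : minpoly ℚ (ψ pb.gen) = minpoly ℚ pb.gen :=
    minpoly.algHom_eq ψ (ψ : E →+* L).injective _
  obtain ⟨σ, hσ⟩ := minpoly.exists_algEquiv_of_root (K := ℚ) (x := φ pb.gen) (y := ψ pb.gen)
    (Algebra.IsAlgebraic.isAlgebraic _) (by
      rw [h1]
      have : Polynomial.aeval (φ pb.gen) (minpoly ℚ pb.gen)
          = φ (Polynomial.aeval pb.gen (minpoly ℚ pb.gen)) := Polynomial.aeval_algHom_apply φ _ _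
      rw [this, minpoly.aeval, map_zero])
  exact ⟨σ, pb.algHom_ext (by simpa using hσ)⟩

instance emb_pretransitive {E : Type} [Field E] [NumberField E] :
    MulAction.IsPretransitive (L ≃ₐ[ℚ] L) (E →ₐ[ℚ] L) := ⟨exists_smul_emb⟩

/-- there are `[E : ℚ]` embeddings of `E` in `L` -/
theorem card_emb {E : Type} [Field E] [NumberField E] [h : Nonempty (E →ₐ[ℚ] L)] :
    Fintype.card (E →ₐ[ℚ] L) = Module.finrank ℚ E := by
  obtain ⟨φ⟩ := h
  exact AlgHom.card_of_splits ℚ E L (splits_of_emb φ)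

variable {ι : Type} {E : ι → Type} [∀ i, Field (E i)] [∀ i, NumberField (E i)]

noncomputable instance fintypeEmb [Fintype ι] : Fintype (Emb L E) := inferInstance

theorem card_emb_sigma [Fintype ι] [∀ i, Nonempty (E i →ₐ[ℚ] L)] :
    Fintype.card (Emb L E) = ∑ i, Module.finrank ℚ (E i) := by
  rw [Fintype.card_sigma]
  exact Finset.sum_congr rfl fun i _ => card_emb

theorem ncard_orbit_emb [∀ i, Nonempty (E i →ₐ[ℚ] L)] (x : Emb L E) :
    (MulAction.orbit (L ≃ₐ[ℚ] L) x).ncard = Module.finrank ℚ (E x.1) := by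
  obtain ⟨i, φ⟩ := x
  have h1 : MulAction.orbit (L ≃ₐ[ℚ] L) (⟨i, φ⟩ : Emb L E)
      = (fun ψ : E i →ₐ[ℚ] L => (⟨i, ψ⟩ : Emb L E)) '' Set.univ := by
    ext y
    constructor
    · rintro ⟨γ, rfl⟩
      exact ⟨γ • φ, trivial, rfl⟩
    · rintro ⟨ψ, -, rfl⟩
      obtain ⟨γ, rfl⟩ := exists_smul_emb φ ψ
      exact ⟨γ, rfl⟩
  rw [h1, Set.ncard_image_of_injective _ (fun ψ ψ' h => by
    simpa using h), Set.ncard_univ, Nat.card_eq_fintype_card, card_emb]

/-- The action is faithful if `L` is the Galois closure of `E`. -/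
theorem faithful_of_normalClosure {E : Type} [Field E] [NumberField E]
    [IsNormalClosure ℚ E L] : FaithfulSMul (L ≃ₐ[ℚ] L) (E →ₐ[ℚ] L) := by
  have hne : Nonempty (E →ₐ[ℚ] L) := by
    rw [← Fintype.card_pos_iff, AlgHom.card_of_splits ℚ E L (IsNormalClosure.splits)]
    exact Module.finrank_pos
  obtain ⟨φ⟩ := hne
  refine ⟨fun {γ δ} h => ?_⟩
  have h1 : IntermediateField.fixedField (Subgroup.zpowers (δ⁻¹ * γ)) = ⊤ := by
    rw [eq_top_iff, ← IsNormalClosure.adjoin_rootSet (F := ℚ) (K := E) (L := L)]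
    refine iSup_le fun x => ?_
    rw [IntermediateField.adjoin_le_iff]
    intro y hy
    rw [Polynomial.mem_rootSet] at hy
    obtain ⟨σ, hσ⟩ := minpoly.exists_algEquiv_of_root' (K := ℚ) (x := y) (y := φ x)
      (Algebra.IsAlgebraic.isAlgebraic _) (by
        rw [minpoly.algHom_eq φ (φ : E →+* L).injective]
        exact hy.2)
    have h2 : γ y = δ y := by
      have := DFunLike.congr_fun (h (σ • φ)) x
      simpa [hσ] using this
    have h3 : (δ⁻¹ * γ) • y = y := by
      change δ.symm (γ y) = y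
      rw [h2]
      exact δ.symm_apply_apply y
    rintro ⟨τ, n, rfl⟩
    change (δ⁻¹ * γ) ^ n • y = y
    exact (MulAction.stabilizer (L ≃ₐ[ℚ] L) y).zpow_mem (MulAction.mem_stabilizer_iff.mpr h3) n
  have h4 : Subgroup.zpowers (δ⁻¹ * γ) = ⊥ := by
    have := IntermediateField.fixingSubgroup_fixedField (Subgroup.zpowers (δ⁻¹ * γ))
    rw [h1, IntermediateField.fixingSubgroup_top] at this
    exact this.symm
  rw [Subgroup.zpowers_eq_bot] at h4
  exact (inv_mul_eq_one.mp h4).symm

/-- The Galois closure of a CM field is a CM field. -/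
theorem isCMField_of_normalClosure (E : Type) [Field E] [NumberField E] [IsCMField E]
    [IsNormalClosure ℚ E L] : IsCMField L := by
  have hne : Nonempty (E →ₐ[ℚ] L) := by
    rw [← Fintype.card_pos_iff, AlgHom.card_of_splits ℚ E L (IsNormalClosure.splits)]
    exact Module.finrank_pos
  have hfaith : FaithfulSMul (L ≃ₐ[ℚ] L) (E →ₐ[ℚ] L) := faithful_of_normalClosure
  obtain ⟨ψ0⟩ := hne
  have hL : IsTotallyComplex L := by
    let _ := (ψ0 : E →+* L).toAlgebra
    exact isTotallyComplex_of_algebra E L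
  obtain ⟨φ⟩ : Nonempty (L →+* ℂ) := inferInstance
  obtain ⟨σ, hσ⟩ := NumberField.ComplexEmbedding.exists_comp_symm_eq_of_comp_eq (k := ℚ) φ
    (conjugate φ) (by ext; simp)
  have hc : IsConj φ σ.symm := hσ.symm
  have h1 : ∀ (ψ : E →ₐ[ℚ] L) (x : E), σ.symm (ψ x) = ψ (IsCMField.complexConj E x) := by
    intro ψ x
    apply φ.injective
    have h2 := IsCMField.complexEmbedding_complexConj E (φ.comp (ψ : E →+* L)) x
    have h3 := hc.eq (ψ x)
    exact h3.trans h2.symm
  have hcomm : ∀ γ : L ≃ₐ[ℚ] L, σ.symm * γ = γ * σ.symm := by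
    intro γ
    apply FaithfulSMul.eq_of_smul_eq_smul (α := E →ₐ[ℚ] L)
    intro ψ
    ext x
    change σ.symm ((γ • ψ) x) = γ (σ.symm (ψ x))
    rw [h1, h1]
    rfl
  refine IsCMField.of_forall_isConj L (σ := σ.symm) fun φ' => ?_
  obtain ⟨ν, rfl⟩ := NumberField.ComplexEmbedding.exists_comp_symm_eq_of_comp_eq (k := ℚ) φ φ'
    (by ext; simp)
  have h4 := hc.comp ν.symm
  have h5 : ν.symm⁻¹ * σ.symm * ν.symm = σ.symm := by
    rw [mul_assoc, hcomm, ← mul_assoc, inv_mul_cancel, one_mul]
  rw [h5] at h4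
  exact h4

end card

end

end Pool.Agent.Lib.MP_938ce2_ag_h60
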