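import Mathlib
import Pool.Agent.Lib.MP_938ce2_ag_h60.GSet

/-!
CM fields whose degree is a power of two.
-/

set_option autoImplicit false
set_option linter.unusedSectionVars false

namespace Pool.Agent.Lib.MP_938ce2_ag_h60

section lattice

variable {X : Type} [Fintype X]

/-- a nonzero two-saturated group of integral functions contains a function with an odd value -/
lemma exists_odd_value (W : AddSubgroup (X → ℤ))
    (hdiv : ∀ h : X → ℤ, (fun x => 2 * h x) ∈ W → h ∈ W) (n : ℕ) :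
    ∀ h ∈ W, h ≠ 0 → ∑ x, (h x).natAbs = n → ∃ h' ∈ W, ∃ x, Odd (h' x) := by
  induction n using Nat.strong_induction_on with
  | _ n ih =>
    intro h hW h0 hn
    by_cases hodd : ∃ x, Odd (h x)
    · exact ⟨h, hW, hodd⟩
    · push Not at hodd
      have h1 : ∀ x, ∃ y : ℤ, h x = 2 * y := fun x => by
        obtain ⟨y, hy⟩ := Int.not_odd_iff_even.mp (hodd x)
        exact ⟨y, by omega⟩
      choose g hg using h1
      have h2 : h = fun x => 2 * g x := funext hg
      have h3 : g ≠ 0 := by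
        rintro rfl
        apply h0
        rw [h2]
        funext x
        simp
      have h4 : g ∈ W := hdiv g (h2 ▸ hW)
      have h5 : n = 2 * ∑ x, (g x).natAbs := by
        rw [← hn, h2, Finset.mul_sum]
        exact Finset.sum_congr rfl fun x _ => by
          simp [Int.natAbs_mul]
      have h6 : 0 < ∑ x, (g x).natAbs := by
        rw [Nat.pos_iff_ne_zero]
        intro h7
        apply h3
        funext x
        have h8 := (Finset.sum_eq_zero_iff.mp h7) x (Finset.mem_univ x)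
        simpa using h8
      exact ih _ (by omega) g h4 h3 rfl

end lattice

section fixed

variable {P : Type} [Group P] [Fintype P] {X : Type} [MulAction P X] [Fintype X]

/-- translation of the argument -/
def trans {R : Type} (γ : P) (h : X → R) : X → R := fun x => h (γ • x)

/-- a nonzero two-saturated group of integral functions, stable under a `2`-group, contains a
function with an odd value whose parity is invariant -/
theorem exists_fixed_odd (hP : IsPGroup 2 P)
    (W : AddSubgroup (X → ℤ))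
    (hdiv : ∀ h : X → ℤ, (fun x => 2 * h x) ∈ W → h ∈ W)
    (hst : ∀ γ : P, ∀ h ∈ W, trans γ h ∈ W)
    {h : X → ℤ} (hW : h ∈ W) (h0 : h ≠ 0) :
    ∃ h' ∈ W, (∃ x, Odd (h' x)) ∧ ∀ (γ : P) (x : X), Odd (h' (γ • x)) ↔ Odd (h' x) := by
  classical
  obtain ⟨h1, h1W, x1, hx1⟩ := exists_odd_value W hdiv _ h hW h0 rfl
  -- the reduction
  let ρ : (X → ℤ) →+ (X → ZMod 2) :=
    { toFun := fun f x => (f x : ZMod 2)
      map_zero' := by funext x; simp
      map_add' := fun f g => by funext x; simp }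
  let V : AddSubgroup (X → ZMod 2) := W.map ρ
  have hVst : ∀ γ : P, ∀ v ∈ V, trans γ v ∈ V := by
    rintro γ v ⟨f, hf, rfl⟩
    exact ⟨trans γ f, hst γ f hf, rfl⟩
  let act : MulAction P V :=
    { smul := fun γ v => ⟨trans γ⁻¹ v.1, hVst γ⁻¹ v.1 v.2⟩
      one_smul := fun v => Subtype.ext (funext fun x => by
        change v.1 ((1 : P)⁻¹ • x) = v.1 x
        rw [inv_one, one_smul])
      mul_smul := fun a b v => Subtype.ext (funext fun x => by
        change v.1 ((a * b)⁻¹ • x) = v.1 (b⁻¹ • a⁻¹ • x)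
        rw [mul_inv_rev, mul_smul]) }
  have hsmul : ∀ (γ : P) (v : V) (x : X), (γ • v).1 x = v.1 (γ⁻¹ • x) := fun _ _ _ => rfl
  have hodd : ∀ n : ℤ, Odd n ↔ (n : ZMod 2) ≠ 0 := by
    intro n
    rw [← Int.not_even_iff_odd, even_iff_two_dvd, Ne, ZMod.intCast_zmod_eq_zero_iff_dvd]
    norm_num
  have hne : (⟨ρ h1, h1, h1W, rfl⟩ : V) ≠ 0 := by
    intro h2
    have h3 := congrArg (fun v : V => v.1 x1) h2
    have h4 : (h1 x1 : ZMod 2) = 0 := h3
    exact (hodd _).mp hx1 h4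
  have hord : addOrderOf (⟨ρ h1, h1, h1W, rfl⟩ : V) = 2 := by
    refine addOrderOf_eq_prime ?_ hne
    apply Subtype.ext
    funext x
    change ((2 : ℕ) • (ρ h1)) x = 0
    rw [Pi.smul_apply, two_nsmul, CharTwo.add_self_eq_zero]
  have hdvd : 2 ∣ Nat.card V := by
    have h2 := addOrderOf_dvd_natCard (⟨ρ h1, h1, h1W, rfl⟩ : V)
    rwa [hord] at h2
  have hfix0 : (0 : V) ∈ MulAction.fixedPoints P V := by
    intro γ
    apply Subtype.ext
    funext x
    rw [hsmul]
    rfl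
  have : Fact (Nat.Prime 2) := ⟨Nat.prime_two⟩
  obtain ⟨b, hb, hb0⟩ := hP.exists_fixed_point_of_prime_dvd_card_of_fixed_point V hdvd hfix0
  have hconst : ∀ (γ : P) (x : X), b.1 (γ • x) = b.1 x := by
    intro γ x
    have h2 := congrArg (fun v : V => v.1 (γ • x)) (hb γ)
    simp only [hsmul, inv_smul_smul] at h2
    exact h2.symm
  have hbne : ∃ x, b.1 x ≠ 0 := by
    by_contra h2
    push Not at h2
    exact hb0 (Subtype.ext (funext fun x => (h2 x).symm))
  obtain ⟨x0, hx0⟩ := hbne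
  obtain ⟨f, hf, hfb⟩ := b.2
  have h2 : ∀ x, (f x : ZMod 2) = b.1 x := fun x => congrFun hfb x
  refine ⟨f, hf, ⟨x0, ?_⟩, fun γ x => ?_⟩
  · rw [hodd, h2]; exact hx0
  · rw [hodd, hodd, h2, h2, hconst]

/-- a nonzero two-saturated group of integral functions, stable under a transitive `2`-group,
contains a function all of whose values are odd -/
theorem exists_all_odd (hP : IsPGroup 2 P) [MulAction.IsPretransitive P X]
    (W : AddSubgroup (X → ℤ))
    (hdiv : ∀ h : X → ℤ, (fun x => 2 * h x) ∈ W → h ∈ W)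
    (hst : ∀ γ : P, ∀ h ∈ W, trans γ h ∈ W)
    {h : X → ℤ} (hW : h ∈ W) (h0 : h ≠ 0) : ∃ h' ∈ W, ∀ x, Odd (h' x) := by
  obtain ⟨f, hf, ⟨x0, hx0⟩, hinv⟩ := exists_fixed_odd hP W hdiv hst hW h0
  refine ⟨f, hf, fun x => ?_⟩
  obtain ⟨γ, rfl⟩ := MulAction.exists_smul_eq P x0 x
  exact (hinv γ x0).mpr hx0

end fixed

section

variable {Γ : Type} [Group Γ] [Fintype Γ] {X : Type} [MulAction Γ X] [Fintype X]
variable {c : Γ} {Φ : Finset X}

/-- the odd integral functions annihilated by the translates of the CM type -/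
def ann (c : Γ) (Φ : Finset X) : AddSubgroup (X → ℤ) where
  carrier := {h | (∀ x, h (c • x) = - h x) ∧ ∀ γ : Γ, ∑ φ ∈ Φ, h (γ • φ) = 0}
  zero_mem' := ⟨fun x => by simp, fun γ => by simp⟩
  add_mem' := by
    rintro a b ⟨ha, ha'⟩ ⟨hb, hb'⟩
    refine ⟨fun x => by simp only [Pi.add_apply, ha, hb]; ring, fun γ => ?_⟩
    simp only [Pi.add_apply, Finset.sum_add_distrib, ha', hb', add_zero]
  neg_mem' := by
    rintro a ⟨ha, ha'⟩
    refine ⟨fun x => by simp only [Pi.neg_apply, ha], fun γ => ?_⟩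
    simp only [Pi.neg_apply, Finset.sum_neg_distrib, ha', neg_zero]

lemma mem_ann {h : X → ℤ} :
    h ∈ ann c Φ ↔ (∀ x, h (c • x) = - h x) ∧ ∀ γ : Γ, ∑ φ ∈ Φ, h (γ • φ) = 0 := Iff.rfl

lemma ann_div (h : X → ℤ) (hh : (fun x => 2 * h x) ∈ ann c Φ) : h ∈ ann c Φ := by
  obtain ⟨h1, h2⟩ := mem_ann.mp hh
  refine mem_ann.mpr ⟨fun x => ?_, fun γ => ?_⟩
  · have := h1 x
    omega
  · have := h2 γ
    rw [← Finset.mul_sum] at this
    omega

lemma ann_trans (hcc : ∀ γ : Γ, c * γ = γ * c) (γ : Γ) (h : X → ℤ) (hh : h ∈ ann c Φ) :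
    trans γ h ∈ ann c Φ := by
  obtain ⟨h1, h2⟩ := mem_ann.mp hh
  refine mem_ann.mpr ⟨fun x => ?_, fun δ => ?_⟩
  · change h (γ • c • x) = - h (γ • x)
    rw [smul_smul, ← hcc, ← smul_smul, h1]
  · change ∑ φ ∈ Φ, h (γ • δ • φ) = 0
    rw [← h2 (γ * δ)]
    exact Finset.sum_congr rfl fun φ _ => by rw [smul_smul]

lemma nondeg_of_ann (h : ∀ f ∈ ann c Φ, f = 0) : Nondeg c Φ := by
  intro f h1 h2 x
  rw [h f (mem_ann.mpr ⟨h1, h2⟩)]
  rfl

/-! ### Odd permutations -/

/-- the number of sign changes -/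
noncomputable def flips [DecidableEq X] (Φ : Finset X) (γ : Γ) : ℕ :=
  (Φ.filter fun φ => γ • φ ∉ Φ).card

lemma sum_flips [DecidableEq X] (hc2 : c * c = 1) (hΦ : CMType c Φ) {f : X → ℤ}
    (hcc : ∀ γ : Γ, c * γ = γ * c) (hf : f ∈ ann c Φ) (γ : Γ) :
    ∑ φ ∈ Φ.filter (fun φ => γ • φ ∉ Φ), f (γ • φ) = 0 := by
  obtain ⟨h1, h2⟩ := mem_ann.mp hf
  have h3 := h2 γ
  have h4 := h2 1
  simp only [one_smul] at h4
  -- `Σ_Φ f = Σ_{φ : γφ ∈ Φ} f (γφ) - Σ_{φ : γφ ∉ Φ} f (γφ)`
  have h5 : ∑ φ ∈ Φ, f φ = ∑ φ ∈ Φ, (if γ • φ ∈ Φ then f (γ • φ) else - f (γ • φ)) := by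
    have e : ∀ φ : X, (if γ • φ ∈ Φ then γ • φ else c • γ • φ) ∈ Φ := by
      intro φ
      split_ifs with h
      · exact h
      · by_contra h'
        exact h ((hΦ _).mpr h')
    symm
    refine Finset.sum_bij' (i := fun φ _ => if γ • φ ∈ Φ then γ • φ else c • γ • φ)
      (j := fun φ _ => if γ⁻¹ • φ ∈ Φ then γ⁻¹ • φ else c • γ⁻¹ • φ) ?_ ?_ ?_ ?_ ?_
    · intro φ _; exact e φ
    · intro φ _
      split_ifs with h
      · exact h
      · by_contra h'
        exact h ((hΦ _).mpr h')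
    · intro φ hφ
      by_cases h : γ • φ ∈ Φ
      · rw [if_pos h, inv_smul_smul, if_pos hφ]
      · rw [if_neg h]
        have e1 : γ⁻¹ • c • γ • φ = c • φ := by
          rw [smul_smul, smul_smul]
          congr 1
          rw [← hcc γ⁻¹, mul_assoc, inv_mul_cancel, mul_one]
        rw [e1, if_neg ((hΦ φ).mp hφ), smul_smul_self hc2]
    · intro φ hφ
      by_cases h : γ⁻¹ • φ ∈ Φ
      · rw [if_pos h, smul_inv_smul, if_pos hφ]
      · rw [if_neg h]
        have e1 : γ • c • γ⁻¹ • φ = c • φ := by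
          rw [smul_smul, smul_smul]
          congr 1
          rw [← hcc γ, mul_assoc, mul_inv_cancel, mul_one]
        rw [e1, if_neg ((hΦ φ).mp hφ), smul_smul_self hc2]
    · intro φ _
      split_ifs with h
      · rfl
      · rw [h1]
  have h6 : ∑ φ ∈ Φ, f (γ • φ) - ∑ φ ∈ Φ, (if γ • φ ∈ Φ then f (γ • φ) else - f (γ • φ))
      = 2 * ∑ φ ∈ Φ.filter (fun φ => γ • φ ∉ Φ), f (γ • φ) := by
    rw [← Finset.sum_sub_distrib, Finset.sum_filter, Finset.mul_sum]
    refine Finset.sum_congr rfl fun φ _ => ?_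
    by_cases h : γ • φ ∈ Φ
    · simp [h]
    · simp [h]; ring
  rw [← h5, h3, h4] at h6
  omega

lemma even_card_of_sum_odd {α : Type} (s : Finset α) (f : α → ℤ) (hf : ∀ x ∈ s, Odd (f x))
    (h0 : Even (∑ x ∈ s, f x)) : Even s.card := by
  have h1 : Even (∑ x ∈ s, (f x - 1)) := by
    refine Finset.even_sum _ fun x hx => ?_
    exact Int.even_sub_one.mpr (Int.not_even_iff_odd.mpr (hf x hx))
  have h2 : ∑ x ∈ s, f x = ∑ x ∈ s, (f x - 1) + s.card := by
    rw [Finset.sum_sub_distrib]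
    simp
  rw [h2] at h0
  have h3 : Even ((s.card : ℤ)) := (Int.even_add.mp h0).mp h1
  exact_mod_cast h3

/-- If for every nonempty set of embeddings stable under the `2`-group `P` some element of the group
changes an odd number of signs on this set, the CM type is nondegenerate. -/
theorem nondeg_of_odd_flips [DecidableEq X] (hcc : ∀ γ : Γ, c * γ = γ * c) (hc2 : c * c = 1)
    (P : Subgroup Γ) (hP : IsPGroup 2 P) (hΦ : CMType c Φ)
    (hodd : ∀ Z : Finset X, Z.Nonempty → (∀ γ ∈ P, ∀ x, γ • x ∈ Z ↔ x ∈ Z) →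
      (∀ x, c • x ∈ Z ↔ x ∈ Z) →
      ∃ γ : Γ, Odd ((Φ.filter fun φ => γ • φ ∉ Φ ∧ γ • φ ∈ Z).card)) : Nondeg c Φ := by
  classical
  apply nondeg_of_ann
  intro f hf
  by_contra hf0
  have : Fintype P := Fintype.ofFinite P
  obtain ⟨g, hg, ⟨x0, hx0⟩, hinv⟩ := exists_fixed_odd hP (ann c Φ) ann_div
    (fun δ h hh => ann_trans hcc (δ : Γ) h hh) hf hf0
  obtain ⟨γ, hγ⟩ := hodd (Finset.univ.filter fun x => Odd (g x))
    ⟨x0, Finset.mem_filter.mpr ⟨Finset.mem_univ _, hx0⟩⟩
    (fun γ hγ x => by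
      simp only [Finset.mem_filter, Finset.mem_univ, true_and]
      exact hinv ⟨γ, hγ⟩ x)
    (fun x => by
      simp only [Finset.mem_filter, Finset.mem_univ, true_and]
      rw [(mem_ann.mp hg).1]
      exact odd_neg)
  have h1 := sum_flips hc2 hΦ hcc hg γ
  have h2 : Φ.filter (fun φ => γ • φ ∉ Φ ∧ γ • φ ∈ Finset.univ.filter fun x => Odd (g x))
      = (Φ.filter fun φ => γ • φ ∉ Φ).filter fun φ => Odd (g (γ • φ)) := by
    rw [Finset.filter_filter]
    refine Finset.filter_congr fun φ _ => ?_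
    simp
  rw [h2] at hγ
  have h3 := Finset.sum_filter_add_sum_filter_not (Φ.filter fun φ => γ • φ ∉ Φ)
    (fun φ => Odd (g (γ • φ))) (fun φ => g (γ • φ))
  rw [h1] at h3
  have h4 : Even (∑ φ ∈ (Φ.filter fun φ => γ • φ ∉ Φ).filter (fun φ => ¬ Odd (g (γ • φ))),
      g (γ • φ)) := by
    refine Finset.even_sum _ fun φ hφ => ?_
    exact Int.not_odd_iff_even.mp (Finset.mem_filter.mp hφ).2
  have h5 : Even (∑ φ ∈ (Φ.filter fun φ => γ • φ ∉ Φ).filter (fun φ => Odd (g (γ • φ))),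
      g (γ • φ)) := by
    have h6 : Even (0 : ℤ) := Even.zero
    rw [← h3] at h6
    exact (Int.even_add.mp h6).mpr h4
  have h6 := even_card_of_sum_odd _ (fun φ => g (γ • φ))
    (fun φ hφ => (Finset.mem_filter.mp hφ).2) h5
  rw [← Nat.not_even_iff_odd] at hγ
  exact hγ h6

/-! ### The noncyclic centre -/

lemma sum_stable_eq [DecidableEq X] (hc2 : c * c = 1) (hcc : ∀ γ : Γ, c * γ = γ * c)
    (hΦ : CMType c Φ) {z : Γ} (hz2 : z * z = 1)
    {f : X → ℤ} (hfc : ∀ x, f (c • x) = - f x) (hfz : ∀ x, f (z • x) = f x) :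
    ∑ φ ∈ Φ.filter (fun φ => z • φ ∉ Φ), f φ = 0 := by
  have h1 : ∑ φ ∈ Φ.filter (fun φ => z • φ ∉ Φ), f φ
      = ∑ φ ∈ Φ.filter (fun φ => z • φ ∉ Φ), - f φ := by
    refine Finset.sum_nbij' (fun φ => c • z • φ) (fun φ => c • z • φ) ?_ ?_ ?_ ?_ ?_
    · intro φ hφ
      rw [Finset.mem_filter] at hφ ⊢
      refine ⟨?_, ?_⟩
      · by_contra h
        exact hφ.2 ((hΦ _).mpr h)
      · rw [smul_smul z c, ← hcc, ← smul_smul, smul_smul z z, hz2, one_smul]
        exact (hΦ φ).mp hφ.1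
    · intro φ hφ
      rw [Finset.mem_filter] at hφ ⊢
      refine ⟨?_, ?_⟩
      · by_contra h
        exact hφ.2 ((hΦ _).mpr h)
      · rw [smul_smul z c, ← hcc, ← smul_smul, smul_smul z z, hz2, one_smul]
        exact (hΦ φ).mp hφ.1
    · intro φ _
      rw [smul_smul z c, ← hcc, ← smul_smul, smul_smul z z, hz2, one_smul, smul_smul_self hc2]
    · intro φ _
      rw [smul_smul z c, ← hcc, ← smul_smul, smul_smul z z, hz2, one_smul, smul_smul_self hc2]
    · intro φ _
      rw [hfc, hfz, neg_neg]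
  rw [Finset.sum_neg_distrib] at h1
  omega

/-- sums over sets stable under a fixed point free involution -/
lemma four_dvd_of_sum [DecidableEq X] {z : Γ} (hz2 : z * z = 1) (hzx : ∀ x : X, z • x ≠ x)
    (S : Finset X) (hS : ∀ x, x ∈ S → z • x ∈ S) {f : X → ℤ} (hodd : ∀ x, Odd (f x))
    (hfz : ∀ x, f (z • x) = f x) (hsum : ∑ x ∈ S, f x = 0) : 4 ∣ S.card := by
  let _ : LinearOrder X := LinearOrder.lift' (Fintype.equivFin X) (Equiv.injective _)
  have hd : ∀ x : X, ¬ (x < z • x) ↔ z • x < x := by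
    intro x
    rw [not_lt]
    exact ⟨fun h => lt_of_le_of_ne h (hzx x), le_of_lt⟩
  have hzz : ∀ x : X, z • z • x = x := fun x => by rw [smul_smul, hz2, one_smul]
  have h1 : ∀ (g : X → ℤ), (∀ x, g (z • x) = g x) →
      ∑ x ∈ S, g x = 2 * ∑ x ∈ S.filter (fun x => x < z • x), g x := by
    intro g hg
    rw [← Finset.sum_filter_add_sum_filter_not S (fun x => x < z • x), two_mul]
    congr 1
    refine Finset.sum_nbij' (fun x => z • x) (fun x => z • x) ?_ ?_ ?_ ?_ ?_
    · intro x hx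
      rw [Finset.mem_filter] at hx ⊢
      refine ⟨hS x hx.1, ?_⟩
      rw [hzz]
      exact (hd x).mp hx.2
    · intro x hx
      rw [Finset.mem_filter] at hx ⊢
      refine ⟨hS x hx.1, ?_⟩
      rw [hzz, not_lt]
      exact le_of_lt hx.2
    · intro x _; exact hzz x
    · intro x _; exact hzz x
    · intro x _; exact (hg x).symm
  have h2 := h1 f hfz
  rw [hsum] at h2
  have h3 := even_card_of_sum_odd (S.filter fun x => x < z • x) f (fun x _ => hodd x)
    (by
      have : ∑ x ∈ S.filter (fun x => x < z • x), f x = 0 := by omega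
      rw [this]; exact Even.zero)
  have h4 := h1 (fun _ => 1) (fun _ => rfl)
  simp only [Finset.sum_const, nsmul_eq_mul, mul_one] at h4
  obtain ⟨k, hk⟩ := h3
  omega

/-- the part of the CM type stable under `u` -/
noncomputable def stab [DecidableEq X] (Φ : Finset X) (u : Γ) : Finset X :=
  Φ.filter fun φ => u • φ ∈ Φ

lemma four_dvd_stab [DecidableEq X] (hcc : ∀ γ : Γ, c * γ = γ * c) (hc2 : c * c = 1)
    (P : Subgroup Γ) (hP : IsPGroup 2 P) [MulAction.IsPretransitive P X]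
    (hΦ : CMType c Φ) {z : Γ} (hzP : ∀ γ ∈ P, z * γ = γ * z) (hz2 : z * z = 1)
    (hzx : ∀ x : X, z • x ≠ x) {f : X → ℤ} (hf : f ∈ ann c Φ) (hf0 : f ≠ 0)
    (hfz : ∀ x, f (z • x) = f x) : 4 ∣ (stab Φ z).card := by
  classical
  have : Fintype P := Fintype.ofFinite P
  let W : AddSubgroup (X → ℤ) := ann c Φ ⊓
    { carrier := {h | ∀ x, h (z • x) = h x}
      zero_mem' := fun x => rfl
      add_mem' := by
        intro a b ha hb x
        simp only [Pi.add_apply]
        rw [ha x, hb x]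
      neg_mem' := by
        intro a ha x
        simp only [Pi.neg_apply]
        rw [ha x] }
  obtain ⟨g, hg, hodd⟩ := exists_all_odd hP W
    (fun h hh => ⟨ann_div h hh.1, fun x => by
      have h5 : 2 * h (z • x) = 2 * h x := hh.2 x
      omega⟩)
    (fun δ h hh => ⟨ann_trans hcc (δ : Γ) h hh.1, fun x => by
      change h ((δ : Γ) • z • x) = h ((δ : Γ) • x)
      rw [smul_smul, ← hzP δ δ.2, ← smul_smul]
      exact hh.2 _⟩) (⟨hf, hfz⟩ : f ∈ W) hf0
  have hgz : ∀ x, g (z • x) = g x := hg.2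
  obtain ⟨h1, h2⟩ := mem_ann.mp hg.1
  have h3 := sum_stable_eq hc2 hcc hΦ hz2 h1 hgz
  have h4 := h2 1
  simp only [one_smul] at h4
  rw [← Finset.sum_filter_add_sum_filter_not Φ (fun φ => z • φ ∈ Φ), h3, add_zero] at h4
  refine four_dvd_of_sum hz2 hzx (stab Φ z) ?_ hodd hgz h4
  intro x hx
  unfold stab at hx ⊢
  rw [Finset.mem_filter] at hx ⊢
  refine ⟨hx.2, ?_⟩
  rw [smul_smul, hz2, one_smul]
  exact hx.1

/-- A CM type is nondegenerate if the number of its embeddings in its `u`-stable part is not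
divisible by four. -/
theorem nondeg_of_not_four_dvd [DecidableEq X] (hcc : ∀ γ : Γ, c * γ = γ * c) (hc2 : c * c = 1)
    (P : Subgroup Γ) (hP : IsPGroup 2 P) [MulAction.IsPretransitive P X]
    (hΦ : CMType c Φ) {u : Γ} (hu : ∀ γ ∈ P, u * γ = γ * u) (hu2 : u * u = 1)
    (hux : ∀ x : X, u • x ≠ x) (hucx : ∀ x : X, (u * c) • x ≠ x) (h4 : 4 ∣ Φ.card)
    (hn : ¬ 4 ∣ (stab Φ u).card) : Nondeg c Φ := by
  classical
  apply nondeg_of_ann
  intro f hf
  by_contra hf0
  obtain ⟨h1, -⟩ := mem_ann.mp hf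
  have hcard : (stab Φ u).card + (stab Φ (u * c)).card = Φ.card := by
    have e : stab Φ (u * c) = Φ.filter fun φ => ¬ (u • φ ∈ Φ) := by
      unfold stab
      apply Finset.filter_congr
      intro φ _
      rw [← hcc, mul_smul, ← not_iff_not, not_not]
      exact (hΦ _).symm
    rw [e]
    exact Finset.card_filter_add_card_filter_not _
  by_cases h : (fun x => f x + f (u • x)) = 0
  · -- `f` is invariant under `u c`
    have h2 : ∀ x, f ((u * c) • x) = f x := by
      intro x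
      have h3 := congrFun h x
      rw [← hcc, mul_smul, h1]
      have h4 : f x + f (u • x) = 0 := h3
      omega
    have h5 := four_dvd_stab hcc hc2 P hP hΦ (z := u * c)
      (fun γ hγ => by rw [mul_assoc, hcc, ← mul_assoc, hu γ hγ, mul_assoc])
      (by rw [mul_assoc, ← mul_assoc c, hcc u, mul_assoc, hc2, mul_one, hu2]) hucx hf hf0 h2
    omega
  · have h2 : (fun x => f x + f (u • x)) ∈ ann c Φ :=
      (ann c Φ).add_mem hf (ann_trans hcc u f hf)
    have h5 := four_dvd_stab hcc hc2 P hP hΦ hu hu2 hux h2 h (fun x => by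
      rw [smul_smul u u, hu2, one_smul, add_comm])
    exact hn h5

end

end Pool.Agent.Lib.MP_938ce2_ag_h60
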