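import Mathlib
import Pool.Agent.Lib.MP_938ce2_ag_h60.TwoPower

/-!
The sign of the permutation of the embeddings; counting CM types.
-/

set_option autoImplicit false
set_option linter.unusedSectionVars false

namespace Pool.Agent.Lib.MP_938ce2_ag_h60

section

variable {Γ : Type} [Group Γ] [Fintype Γ] {X : Type} [MulAction Γ X] [Fintype X] [DecidableEq X]
variable {c : Γ} {Φ : Finset X}

lemma CMType.ite_mem (hΦ : CMType c Φ) (x : X) : (if x ∈ Φ then x else c • x) ∈ Φ := by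
  split_ifs with h
  · exact h
  · by_contra h'
    exact h ((hΦ _).mpr h')

/-- the embeddings as pairs -/
noncomputable def splitEquiv (hc2 : c * c = 1) (hΦ : CMType c Φ) : X ≃ {x // x ∈ Φ} × Bool where
  toFun x := (⟨if x ∈ Φ then x else c • x, hΦ.ite_mem x⟩, decide (x ∈ Φ))
  invFun p := if p.2 then p.1.1 else c • p.1.1
  left_inv x := by
    by_cases h : x ∈ Φ
    · simp [h]
    · simp [h, smul_smul_self hc2]
  right_inv p := by
    obtain ⟨⟨x, hx⟩, b⟩ := p
    cases b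
    · have h : c • x ∉ Φ := (hΦ x).mp hx
      simp [h, smul_smul_self hc2]
    · simp [hx]

lemma nrm_inv (hc2 : c * c = 1) (hcc : ∀ γ : Γ, c * γ = γ * c) (hΦ : CMType c Φ) (γ δ : Γ)
    (hδ : δ * γ = 1) {φ : X} (hφ : φ ∈ Φ) :
    (if δ • (if γ • φ ∈ Φ then γ • φ else c • γ • φ) ∈ Φ
      then δ • (if γ • φ ∈ Φ then γ • φ else c • γ • φ)
      else c • δ • (if γ • φ ∈ Φ then γ • φ else c • γ • φ)) = φ := by
  have e0 : δ • γ • φ = φ := by rw [smul_smul, hδ, one_smul]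
  have e1 : δ • c • γ • φ = c • φ := by
    rw [smul_smul, ← hcc δ, ← smul_smul, e0]
  by_cases h : γ • φ ∈ Φ
  · simp only [if_pos h, e0, if_pos hφ]
  · simp only [if_neg h, e1, if_neg ((hΦ φ).mp hφ), smul_smul_self hc2]

/-- the permutation of the CM type induced by `γ` -/
noncomputable def indPerm (hc2 : c * c = 1) (hcc : ∀ γ : Γ, c * γ = γ * c) (hΦ : CMType c Φ)
    (γ : Γ) : Equiv.Perm {x // x ∈ Φ} where
  toFun x := ⟨if γ • x.1 ∈ Φ then γ • x.1 else c • γ • x.1, hΦ.ite_mem _⟩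
  invFun x := ⟨if γ⁻¹ • x.1 ∈ Φ then γ⁻¹ • x.1 else c • γ⁻¹ • x.1, hΦ.ite_mem _⟩
  left_inv x := Subtype.ext (nrm_inv hc2 hcc hΦ γ γ⁻¹ (inv_mul_cancel γ) x.2)
  right_inv x := Subtype.ext (nrm_inv hc2 hcc hΦ γ⁻¹ γ (mul_inv_cancel γ) x.2)

/-- the sign of the permutation of the embeddings induced by `γ` is the parity of the number of
sign changes -/
theorem sign_eq (hc2 : c * c = 1) (hcc : ∀ γ : Γ, c * γ = γ * c) (hΦ : CMType c Φ) (γ : Γ) :
    Equiv.Perm.sign (MulAction.toPerm γ : Equiv.Perm X) = (-1) ^ flips Φ γ := by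
  classical
  let ρ : {x // x ∈ Φ} → Equiv.Perm Bool := fun x =>
    if γ • x.1 ∈ Φ then 1 else Equiv.swap true false
  have h1 : Equiv.Perm.sign (MulAction.toPerm γ : Equiv.Perm X)
      = Equiv.Perm.sign ((Equiv.prodCongrLeft fun _ : Bool => indPerm hc2 hcc hΦ γ)
        * Equiv.prodCongrRight ρ : Equiv.Perm ({x // x ∈ Φ} × Bool)) := by
    refine Equiv.Perm.sign_eq_sign_of_equiv _ _ (splitEquiv hc2 hΦ) fun x => ?_
    rw [Equiv.Perm.mul_apply]
    apply Prod.ext
    · apply Subtype.ext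
      change (if γ • x ∈ Φ then γ • x else c • γ • x)
        = if γ • (if x ∈ Φ then x else c • x) ∈ Φ then γ • (if x ∈ Φ then x else c • x)
          else c • γ • (if x ∈ Φ then x else c • x)
      by_cases h : x ∈ Φ
      · simp only [if_pos h]
      · simp only [if_neg h]
        have e1 : γ • c • x = c • γ • x := by rw [smul_smul, ← hcc, ← smul_smul]
        rw [e1]
        by_cases h' : γ • x ∈ Φ
        · rw [if_pos h', if_neg ((hΦ _).mp h'), smul_smul_self hc2]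
        · have h'' : c • γ • x ∈ Φ := by
            by_contra h3
            exact h' ((hΦ _).mpr h3)
          rw [if_neg h', if_pos h'']
    · change decide (γ • x ∈ Φ)
        = ρ ⟨if x ∈ Φ then x else c • x, hΦ.ite_mem x⟩ (decide (x ∈ Φ))
      by_cases h : x ∈ Φ
      · simp only [ρ, if_pos h]
        by_cases h' : γ • x ∈ Φ
        · simp [h, h']
        · simp [h, h']
      · simp only [ρ, if_neg h]
        have e1 : γ • c • x = c • γ • x := by rw [smul_smul, ← hcc, ← smul_smul]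
        rw [e1]
        by_cases h' : γ • x ∈ Φ
        · rw [if_neg ((hΦ _).mp h')]
          simp [h, h']
        · have h'' : c • γ • x ∈ Φ := by
            by_contra h3
            exact h' ((hΦ _).mpr h3)
          rw [if_pos h'']
          simp [h, h']
  rw [h1, Equiv.Perm.sign_mul, Equiv.Perm.sign_prodCongrLeft, Equiv.Perm.sign_prodCongrRight]
  have h2 : ∏ _k : Bool, Equiv.Perm.sign (indPerm hc2 hcc hΦ γ) = 1 := by
    rw [Finset.prod_const, Finset.card_univ, Fintype.card_bool, ← map_pow]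
    rw [map_pow]
    exact Int.units_sq _
  have h3 : ∀ x : {x // x ∈ Φ}, Equiv.Perm.sign (ρ x) = if γ • x.1 ∈ Φ then 1 else -1 := by
    intro x
    by_cases h : γ • x.1 ∈ Φ
    · simp only [ρ, if_pos h, Equiv.Perm.sign_one]
    · simp only [ρ, if_neg h]
      exact Equiv.Perm.sign_swap (by decide)
  rw [h2, one_mul, Finset.prod_congr rfl fun x _ => h3 x]
  have h4 : ∏ x : {x // x ∈ Φ}, (if γ • x.1 ∈ Φ then (1 : ℤˣ) else -1)
      = ∏ x ∈ Φ, if γ • x ∈ Φ then (1 : ℤˣ) else -1 :=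
    Finset.prod_coe_sort Φ (fun x => if γ • x ∈ Φ then (1 : ℤˣ) else -1)
  rw [h4, Finset.prod_ite, Finset.prod_const_one, one_mul, Finset.prod_const]
  rfl

theorem odd_flips_of_sign (hc2 : c * c = 1) (hcc : ∀ γ : Γ, c * γ = γ * c) (hΦ : CMType c Φ)
    {γ : Γ} (hγ : Equiv.Perm.sign (MulAction.toPerm γ : Equiv.Perm X) = -1) :
    Odd (flips Φ γ) := by
  rw [sign_eq hc2 hcc hΦ] at hγ
  by_contra h
  rw [Nat.not_odd_iff_even] at h
  rw [h.neg_one_pow] at hγ
  exact absurd hγ (by decide)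

/-! ### Flipping one pair -/

/-- exchange `x₀` and `c x₀` -/
def flip (c : Γ) (x0 : X) (Φ : Finset X) : Finset X := symmDiff Φ {x0, c • x0}

lemma mem_flip {x0 x : X} : x ∈ flip c x0 Φ ↔ ¬ (x ∈ Φ ↔ (x = x0 ∨ x = c • x0)) := by
  unfold flip
  rw [Finset.mem_symmDiff, Finset.mem_insert, Finset.mem_singleton]
  tauto

lemma flip_flip (x0 : X) : flip c x0 (flip c x0 Φ) = Φ := symmDiff_symmDiff_cancel_right _ _

lemma flip_cm (hc2 : c * c = 1) (hΦ : CMType c Φ) (x0 : X) :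
    CMType c (flip c x0 Φ) := by
  intro x
  rw [mem_flip, mem_flip, hΦ x]
  have h1 : (x = x0 ∨ x = c • x0) ↔ (c • x = x0 ∨ c • x = c • x0) := by
    constructor
    · rintro (rfl | rfl)
      · exact Or.inr rfl
      · exact Or.inl (smul_smul_self hc2 x0)
    · rintro (rfl | h)
      · exact Or.inr (smul_smul_self hc2 x).symm
      · exact Or.inl (smul_left_cancel c h)
  rw [h1]
  tauto

/-- flipping one pair changes the class modulo four of the `u`-stable part -/
lemma stab_flip (hcc : ∀ γ : Γ, c * γ = γ * c) (hc2 : c * c = 1) (hcx : ∀ x : X, c • x ≠ x)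
    {u : Γ} (hu2 : u * u = 1) (hux : ∀ x : X, u • x ≠ x) (hucx : ∀ x : X, (u * c) • x ≠ x)
    (hΦ : CMType c Φ) (x0 : X) :
    (stab (flip c x0 Φ) u).card = (stab Φ u).card + 2 ∨
      (stab (flip c x0 Φ) u).card + 2 = (stab Φ u).card := by
  have huu : ∀ x : X, u • u • x = x := fun x => by rw [smul_smul, hu2, one_smul]
  have hcomm : ∀ x : X, u • c • x = c • u • x := fun x => by rw [smul_smul, ← hcc, ← smul_smul]
  set O : Finset X := {x0, u • x0, c • x0, c • u • x0} with hO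
  have d1 : x0 ≠ u • x0 := (hux x0).symm
  have d2 : x0 ≠ c • x0 := (hcx x0).symm
  have d3 : x0 ≠ c • u • x0 := by
    rw [← hcomm, smul_smul]; exact (hucx x0).symm
  have d4 : u • x0 ≠ c • x0 := by
    intro h
    apply hucx x0
    rw [mul_smul, ← h, huu]
  have d5 : u • x0 ≠ c • u • x0 := (hcx _).symm
  have d6 : c • x0 ≠ c • u • x0 := fun h => d1 (smul_left_cancel c h)
  have hsplit : ∀ Ψ : Finset X, (stab Ψ u).card
      = ((stab Ψ u).filter fun x => x ∉ O).card + ∑ x ∈ O, if (x ∈ Ψ ∧ u • x ∈ Ψ) then 1 else 0 := by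
    intro Ψ
    rw [← Finset.card_filter, ← Finset.card_filter_add_card_filter_not (s := stab Ψ u) (fun x => x ∉ O)]
    congr 1
    congr 1
    ext x
    unfold stab
    simp only [Finset.mem_filter, not_not]
    tauto
  have hout : (stab (flip c x0 Φ) u).filter (fun x => x ∉ O)
      = (stab Φ u).filter fun x => x ∉ O := by
    unfold stab
    ext x
    simp only [Finset.mem_filter, mem_flip]
    have key : x ∉ O → ¬ (x = x0 ∨ x = c • x0) ∧ ¬ (u • x = x0 ∨ u • x = c • x0) := by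
      intro h
      rw [hO] at h
      simp only [Finset.mem_insert, Finset.mem_singleton, not_or] at h
      obtain ⟨h1, h2, h3, h4⟩ := h
      refine ⟨not_or.mpr ⟨h1, h3⟩, not_or.mpr ⟨fun h => h2 ?_, fun h => h4 ?_⟩⟩
      · rw [← h, huu]
      · rw [← hcomm, ← h, huu]
    constructor
    · rintro ⟨⟨h1, h2⟩, h3⟩
      obtain ⟨h4, h5⟩ := key h3
      tauto
    · rintro ⟨⟨h1, h2⟩, h3⟩
      obtain ⟨h4, h5⟩ := key h3
      tauto
  have hin : ∀ Ψ : Finset X, CMType c Ψ → (∑ x ∈ O, if (x ∈ Ψ ∧ u • x ∈ Ψ) then 1 else 0)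
      = if (x0 ∈ Ψ ↔ u • x0 ∈ Ψ) then 2 else 0 := by
    intro Ψ hΨ
    rw [hO, Finset.sum_insert (by simp [d1, d2, d3]), Finset.sum_insert (by simp [d4, d5]),
      Finset.sum_insert (by simp [d6]), Finset.sum_singleton]
    have e1 : c • x0 ∈ Ψ ↔ ¬ x0 ∈ Ψ := by rw [hΨ x0, not_not]
    have e2 : c • u • x0 ∈ Ψ ↔ ¬ u • x0 ∈ Ψ := by rw [hΨ (u • x0), not_not]
    simp only [hcomm, huu, e1, e2]
    by_cases a : x0 ∈ Ψ <;> by_cases b : u • x0 ∈ Ψ <;> simp [a, b]
  have h1 := hsplit (flip c x0 Φ)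
  have h2 := hsplit Φ
  rw [hin _ (flip_cm hc2 hΦ x0), hout] at h1
  rw [hin _ hΦ] at h2
  have e1 : x0 ∈ flip c x0 Φ ↔ ¬ x0 ∈ Φ := by
    rw [mem_flip]; simp
  have e2 : u • x0 ∈ flip c x0 Φ ↔ u • x0 ∈ Φ := by
    rw [mem_flip]
    have : ¬ (u • x0 = x0 ∨ u • x0 = c • x0) := not_or.mpr ⟨d1.symm, d4⟩
    tauto
  simp only [e1, e2] at h1
  by_cases a : x0 ∈ Φ <;> by_cases b : u • x0 ∈ Φ <;> simp [a, b] at h1 h2 <;> omega

end

end Pool.Agent.Lib.MP_938ce2_ag_h60
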