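import Mathlib
import Pool.Agent.Lib.MP_938ce2_ag_h60.TwoPower2

/-!
Orbits of Sylow subgroups; the theorems on CM algebras of two-power degree.
-/

set_option autoImplicit false
set_option linter.unusedSectionVars false

namespace Pool.Agent.Lib.MP_938ce2_ag_h60

section sylow

variable {Γ : Type} [Group Γ] [Finite Γ] {X : Type} [MulAction Γ X] [Finite X]

lemma index_stab_sub (P : Subgroup Γ) (x : X) :
    (MulAction.orbit P x).ncard = (MulAction.stabilizer Γ x).relIndex P := by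
  rw [← MulAction.index_stabilizer]
  rfl

/-- the orbits of a Sylow subgroup are large -/
theorem pow_dvd_orbit {p : ℕ} [Fact p.Prime] (P : Sylow p Γ) (x : X) {k : ℕ}
    (hk : p ^ k ∣ (MulAction.orbit Γ x).ncard) :
    p ^ k ∣ (MulAction.orbit (P : Subgroup Γ) x).ncard := by
  rw [index_stab_sub]
  set S := MulAction.stabilizer Γ x with hS
  have h1 : (S ⊓ P).relIndex P * (P : Subgroup Γ).index = (S ⊓ P : Subgroup Γ).index :=
    Subgroup.relIndex_mul_index inf_le_right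
  have h2 : (S ⊓ P).relIndex S * S.index = (S ⊓ P : Subgroup Γ).index :=
    Subgroup.relIndex_mul_index inf_le_left
  rw [Subgroup.inf_relIndex_right] at h1
  have h3 : S.index = (MulAction.orbit Γ x).ncard := MulAction.index_stabilizer Γ x
  have h4 : p ^ k ∣ S.relIndex P * (P : Subgroup Γ).index := by
    rw [h1, ← h2, h3]
    exact hk.mul_left _
  have h5 : ¬ p ∣ (P : Subgroup Γ).index := P.not_dvd_index
  have h6 : Nat.Coprime (p ^ k) (P : Subgroup Γ).index :=
    Nat.Coprime.pow_left _ ((Fact.out (p := p.Prime)).coprime_iff_not_dvd.mpr h5)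
  exact h6.dvd_of_dvd_mul_right h4

theorem orbit_sylow_eq {p : ℕ} [Fact p.Prime] (P : Sylow p Γ) (x : X) {k : ℕ}
    (hk : (MulAction.orbit Γ x).ncard = p ^ k) :
    MulAction.orbit (P : Subgroup Γ) x = MulAction.orbit Γ x := by
  have h1 := pow_dvd_orbit P x (k := k) (by rw [hk])
  have hsub : MulAction.orbit (P : Subgroup Γ) x ⊆ MulAction.orbit Γ x := by
    rintro _ ⟨γ, rfl⟩
    exact ⟨(γ : Γ), rfl⟩
  refine Set.eq_of_subset_of_ncard_le hsub ?_ (Set.toFinite _)
  rw [hk]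
  refine Nat.le_of_dvd ?_ h1
  rw [Set.ncard_pos (Set.toFinite _)]
  exact ⟨x, MulAction.mem_orbit_self x⟩

end sylow

section

variable {Γ : Type} [Group Γ] [Fintype Γ] {X : Type} [MulAction Γ X] [Fintype X]
variable {c : Γ} {Φ : Finset X}

open Classical in
/-- All CM types on a CM algebra are nondegenerate if its factors have two-power degree and
discriminants independent modulo squares. -/
theorem nondeg_algebra (hcc : ∀ γ : Γ, c * γ = γ * c) (hc2 : c * c = 1)
    (horb : ∀ x : X, ∃ k : ℕ, (MulAction.orbit Γ x).ncard = 2 ^ k)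
    (hdisc : ∀ Z : SubMulAction Γ X, (Z : Set X).Nonempty →
      ∃ γ : Γ, Equiv.Perm.sign (MulAction.toPerm γ : Equiv.Perm Z) = -1)
    (hΦ : CMType c Φ) : Nondeg c Φ := by
  have : Fact (Nat.Prime 2) := ⟨Nat.prime_two⟩
  obtain ⟨P⟩ : Nonempty (Sylow 2 Γ) := inferInstance
  refine nondeg_of_odd_flips hcc hc2 (P : Subgroup Γ) P.isPGroup' hΦ ?_
  intro Z hZ hPZ hcZ
  have hΓZ : ∀ (γ : Γ) (x : X), x ∈ Z → γ • x ∈ Z := by
    intro γ x hx
    obtain ⟨k, hk⟩ := horb x
    have h1 : γ • x ∈ MulAction.orbit (P : Subgroup Γ) x := by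
      rw [orbit_sylow_eq P x hk]
      exact MulAction.mem_orbit x γ
    obtain ⟨δ, hδ⟩ := h1
    have h2 : (δ : Γ) • x = γ • x := hδ
    rw [← h2]
    exact (hPZ δ δ.2 x).mpr hx
  let S : SubMulAction Γ X := ⟨(Z : Set X), fun γ {x} hx => hΓZ γ x hx⟩
  obtain ⟨γ, hγ⟩ := hdisc S hZ
  refine ⟨γ, ?_⟩
  -- the CM type induced on `Z`
  let Ψ : Finset S := Finset.univ.filter fun x => x.1 ∈ Φ
  have hΨ : CMType c Ψ := by
    intro x
    simp only [Ψ, Finset.mem_filter, Finset.mem_univ, true_and]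
    exact hΦ x.1
  have h1 := odd_flips_of_sign hc2 hcc hΨ hγ
  have h2 : flips Ψ γ = (Φ.filter fun φ => γ • φ ∉ Φ ∧ γ • φ ∈ Z).card := by
    unfold flips
    rw [← Finset.card_map (Function.Embedding.subtype fun x => x ∈ S)]
    congr 1
    ext x
    simp only [Finset.mem_map, Finset.mem_filter, Ψ, Finset.mem_univ, true_and,
      Function.Embedding.subtype_apply]
    constructor
    · rintro ⟨y, ⟨h3, h4⟩, rfl⟩
      exact ⟨h3, h4, hΓZ γ y.1 y.2⟩
    · rintro ⟨h3, h4, h5⟩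
      have h6 : x ∈ Z := by
        have := hΓZ γ⁻¹ _ h5
        rwa [inv_smul_smul] at this
      exact ⟨⟨x, h6⟩, ⟨h3, h4⟩, rfl⟩
  rw [← h2]
  exact h1

/-- At least half of the CM types on a CM field of two-power degree are nondegenerate if the centre of
a Sylow subgroup is not cyclic. -/
theorem half_nondeg [Nonempty X] (hcc : ∀ γ : Γ, c * γ = γ * c) (hc2 : c * c = 1)
    (hcx : ∀ x : X, c • x ≠ x)
    (P : Subgroup Γ) (hP : IsPGroup 2 P) [MulAction.IsPretransitive P X]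
    {u : Γ} (hu : ∀ γ ∈ P, u * γ = γ * u) (hu2 : u * u = 1)
    (hux : ∀ x : X, u • x ≠ x) (hucx : ∀ x : X, (u * c) • x ≠ x) (h8 : 8 ∣ Fintype.card X) :
    {Φ : Finset X | CMType c Φ}.ncard ≤ 2 * {Φ : Finset X | CMType c Φ ∧ Nondeg c Φ}.ncard := by
  classical
  obtain ⟨x0⟩ := ‹Nonempty X›
  have hfin : ∀ S : Set (Finset X), S.Finite := fun S => Set.toFinite S
  have h1 : {Φ : Finset X | CMType c Φ ∧ ¬ Nondeg c Φ}.ncard
      ≤ {Φ : Finset X | CMType c Φ ∧ Nondeg c Φ}.ncard := by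
    refine Set.ncard_le_ncard_of_injOn (flip c x0) ?_ ?_ (hfin _)
    · rintro Φ ⟨hΦ, hnd⟩
      have hΦ' := flip_cm hc2 hΦ x0
      have hcard : 4 ∣ Φ.card := by
        have := card_cmType hc2 hΦ
        omega
      have hcard' : 4 ∣ (flip c x0 Φ).card := by
        have := card_cmType hc2 hΦ'
        omega
      refine ⟨hΦ', ?_⟩
      refine nondeg_of_not_four_dvd hcc hc2 P hP hΦ' hu hu2 hux hucx hcard' ?_
      have h2 : 4 ∣ (stab Φ u).card := by
        by_contra h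
        exact hnd (nondeg_of_not_four_dvd hcc hc2 P hP hΦ hu hu2 hux hucx hcard h)
      have h3 := stab_flip hcc hc2 hcx hu2 hux hucx hΦ x0
      omega
    · intro Φ _ Ψ _ h
      have h2 : flip c x0 (flip c x0 Φ) = flip c x0 (flip c x0 Ψ) := congrArg _ h
      rwa [flip_flip, flip_flip] at h2
  have h2 : {Φ : Finset X | CMType c Φ} = {Φ : Finset X | CMType c Φ ∧ Nondeg c Φ}
      ∪ {Φ : Finset X | CMType c Φ ∧ ¬ Nondeg c Φ} := by
    ext Φ
    simp only [Set.mem_ofPred_eq, Set.mem_union]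
    by_cases h : Nondeg c Φ <;> simp [h]
  have h3 := Set.ncard_union_le {Φ : Finset X | CMType c Φ ∧ Nondeg c Φ}
    {Φ : Finset X | CMType c Φ ∧ ¬ Nondeg c Φ}
  rw [← h2] at h3
  omega

/-- CM fields of two-power degree. -/
theorem two_power [FaithfulSMul Γ X] [MulAction.IsPretransitive Γ X]
    (hcc : ∀ γ : Γ, c * γ = γ * c) (hc2 : c * c = 1) (hc1 : c ≠ 1) {k : ℕ}
    (hk : Fintype.card X = 2 ^ k) (h3 : 3 ≤ k) (P : Sylow 2 Γ) {u : Γ}
    (hu : ∀ γ ∈ P, u * γ = γ * u) (hu2 : u * u = 1) (hu1 : u ≠ 1) (huc : u ≠ c) :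
    {Φ : Finset X | CMType c Φ}.ncard ≤ 2 * {Φ : Finset X | CMType c Φ ∧ Nondeg c Φ}.ncard := by
  have : Fact (Nat.Prime 2) := ⟨Nat.prime_two⟩
  have hpos : 0 < Fintype.card X := by rw [hk]; positivity
  have : Nonempty X := Fintype.card_pos_iff.mp hpos
  have horb : ∀ x : X, (MulAction.orbit Γ x).ncard = 2 ^ k := by
    intro x
    rw [MulAction.orbit_eq_univ, Set.ncard_univ, Nat.card_eq_fintype_card, hk]
  have htr : MulAction.IsPretransitive (P : Subgroup Γ) X := by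
    refine ⟨fun x y => ?_⟩
    have h1 : y ∈ MulAction.orbit (P : Subgroup Γ) x := by
      rw [orbit_sylow_eq P x (horb x), MulAction.orbit_eq_univ]
      exact Set.mem_univ y
    exact h1
  -- central elements act freely
  have hfree : ∀ z : Γ, (∀ γ ∈ P, z * γ = γ * z) → z ≠ 1 → ∀ x : X, z • x ≠ x := by
    intro z hz hz1 x hx
    apply hz1
    apply FaithfulSMul.eq_of_smul_eq_smul (α := X)
    intro y
    obtain ⟨γ, rfl⟩ := MulAction.exists_smul_eq (P : Subgroup Γ) x y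
    change z • ((γ : Γ) • x) = (1 : Γ) • ((γ : Γ) • x)
    rw [smul_smul, hz γ γ.2, ← smul_smul, hx, one_smul]
  refine half_nondeg hcc hc2 (hfree c (fun γ _ => hcc γ) hc1) (P : Subgroup Γ) P.isPGroup' hu hu2
    (hfree u hu hu1) (hfree (u * c) (fun γ hγ => ?_) ?_) ?_
  · rw [mul_assoc, hcc, ← mul_assoc, hu γ hγ, mul_assoc]
  · intro h
    apply huc
    calc u = u * c * c := by rw [mul_assoc, hc2, mul_one]
      _ = c := by rw [h, one_mul]
  · rw [hk]
    exact pow_dvd_pow 2 h3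

end

end Pool.Agent.Lib.MP_938ce2_ag_h60
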