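import Mathlib
import Pool.Agent.Lib.MP_938ce2_ag_h60.TwoPower3

/-!
CM algebras of arbitrary degree: one subgroup of two-power order suffices.
-/

set_option autoImplicit false
set_option linter.unusedSectionVars false

namespace Pool.Agent.Lib.MP_938ce2_ag_h60

section

variable {Γ : Type} [Group Γ] [Fintype Γ] {X : Type} [MulAction Γ X] [Fintype X]
variable {c : Γ} {Φ : Finset X}

open Classical in
/-- All CM types on a CM algebra are nondegenerate if on every nonempty set of embeddings stable under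
the subgroup `P` of two-power order some element of `P` acts as an odd permutation. -/
theorem nondeg_of_signs (hcc : ∀ γ : Γ, c * γ = γ * c) (hc2 : c * c = 1)
    (P : Subgroup Γ) (hP : IsPGroup 2 P) (hcP : c ∈ P)
    (hsign : ∀ Z : SubMulAction P X, (Z : Set X).Nonempty →
      ∃ γ : P, Equiv.Perm.sign (MulAction.toPerm γ : Equiv.Perm Z) = -1)
    (hΦ : CMType c Φ) : Nondeg c Φ := by
  refine nondeg_of_odd_flips hcc hc2 P hP hΦ ?_
  intro Z hZ hPZ hcZ
  let S : SubMulAction P X := ⟨(Z : Set X), fun γ {x} hx => (hPZ γ γ.2 x).mpr hx⟩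
  obtain ⟨γ, hγ⟩ := hsign S hZ
  refine ⟨(γ : Γ), ?_⟩
  -- the CM type induced on `Z`
  let c' : P := ⟨c, hcP⟩
  have hcc' : ∀ δ : P, c' * δ = δ * c' := fun δ => Subtype.ext (hcc δ)
  have hc2' : c' * c' = 1 := Subtype.ext hc2
  let Ψ : Finset S := Finset.univ.filter fun x => x.1 ∈ Φ
  have hΨ : CMType c' Ψ := by
    intro x
    simp only [Ψ, Finset.mem_filter, Finset.mem_univ, true_and]
    exact hΦ x.1
  have h1 := odd_flips_of_sign hc2' hcc' hΨ hγ
  have h2 : flips Ψ γ = (Φ.filter fun φ => (γ : Γ) • φ ∉ Φ ∧ (γ : Γ) • φ ∈ Z).card := by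
    unfold flips
    rw [← Finset.card_map (Function.Embedding.subtype fun x => x ∈ S)]
    congr 1
    ext x
    simp only [Finset.mem_map, Finset.mem_filter, Ψ, Finset.mem_univ, true_and,
      Function.Embedding.subtype_apply]
    constructor
    · rintro ⟨y, ⟨h3, h4⟩, rfl⟩
      exact ⟨h3, h4, (hPZ γ γ.2 y.1).mpr y.2⟩
    · rintro ⟨h3, h4, h5⟩
      have h6 : x ∈ Z := (hPZ γ γ.2 x).mp h5
      exact ⟨⟨x, h6⟩, ⟨h3, h4⟩, rfl⟩
  rw [← h2]
  exact h1

end

end Pool.Agent.Lib.MP_938ce2_ag_h60
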