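import Mathlib
import Pool.Agent.Lib.MP_938ce2_ag_h60.NumField
import Pool.Agent.Lib.MP_938ce2_ag_h60.Sylow

/-!
# Discriminants and odd permutations
-/

set_option autoImplicit false
set_option linter.unusedSectionVars false

namespace Pool.Agent.Lib.MP_938ce2_ag_h60

open Polynomial Finset

section discr

variable {F : Type} [Field F]

/-- The discriminant of a monic polynomial which splits. -/
theorem discr_prod_X_sub_C {n : ℕ} (hn : 0 < n) (r : Fin n → F) :
    (∏ i, (X - C (r i))).discr = (Matrix.vandermonde r).det ^ 2 := by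
  set g : F[X] := ∏ i, (X - C (r i)) with hg
  have hmon : g.Monic := monic_prod_X_sub_C r _
  have hdeg : g.natDegree = n := by
    rw [hg, natDegree_finsetProd_X_sub_C_eq_card, Finset.card_univ, Fintype.card_fin]
  have hdeg0 : 0 < g.degree := by
    rw [← natDegree_pos_iff_degree_pos, hdeg]
    exact hn
  have hsplit : g.Splits := Polynomial.Splits.prod fun i _ => Splits.X_sub_C (r i)
  have hroots : g.roots = Multiset.map r Finset.univ.val := by
    have e : g = ((Finset.univ.val.map r).map fun a => X - C a).prod := by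
      rw [Multiset.map_map]
      rfl
    rw [e, roots_multiset_prod_X_sub_C]
  have h1 := resultant_deriv hdeg0
  have h2 := resultant_eq_prod_eval g g.derivative (g.natDegree - 1)
    (natDegree_derivative_le g) hsplit
  rw [h2, hmon.leadingCoeff, one_pow, one_mul, mul_one, hroots, Multiset.map_map] at h1
  have h3 : ∀ i, g.derivative.eval (r i) = ∏ j ∈ {i}ᶜ, (r i - r j) := by
    intro i
    have e : g = Lagrange.nodal Finset.univ r := rfl
    rw [e, Lagrange.eval_nodal_derivative_eval_node_eq (Finset.mem_univ i), Lagrange.eval_nodal,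
      Finset.compl_singleton]
  have h4 : (Multiset.map ((fun x => eval x g.derivative) ∘ r) Finset.univ.val).prod
      = ∏ i, ∏ j ∈ {i}ᶜ, (r i - r j) := Finset.prod_congr rfl fun i _ => h3 i
  rw [h4, ← Finset.prod_prod_Ioi_mul_eq_prod_prod_off_diag (fun j i => r i - r j)] at h1
  have h5 : ∏ i : Fin n, ∏ j ∈ Finset.Ioi i, (r i - r j) * (r j - r i)
      = (-1) ^ (n * (n - 1) / 2) * (Matrix.vandermonde r).det ^ 2 := by
    rw [Matrix.det_vandermonde, ← Finset.prod_pow]
    have e1 : ∀ i : Fin n, ∏ j ∈ Finset.Ioi i, (r i - r j) * (r j - r i)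
        = (-1) ^ (n - 1 - (i : ℕ)) * (∏ j ∈ Finset.Ioi i, (r j - r i)) ^ 2 := by
      intro i
      rw [← Fin.card_Ioi, ← Finset.prod_pow, ← Finset.prod_const, ← Finset.prod_mul_distrib]
      exact Finset.prod_congr rfl fun j _ => by ring
    rw [Finset.prod_congr rfl fun i _ => e1 i, Finset.prod_mul_distrib]
    congr 1
    rw [Finset.prod_pow_eq_pow_sum, Fin.sum_univ_eq_sum_range (fun i => n - 1 - i) n,
      Finset.sum_range_reflect (fun i => i) n, Finset.sum_range_id]
  rw [h5, hdeg] at h1
  have h6 : ((-1 : F) ^ (n * (n - 1) / 2)) ≠ 0 := pow_ne_zero _ (by simp)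
  exact (mul_left_cancel₀ h6 h1).symm

/-- The discriminant of a monic polynomial is compatible with field extensions. -/
theorem discr_map_monic {K : Type} [Field K] (φ : K →+* F) {g : K[X]} (hg : g.Monic)
    (hg0 : 0 < g.degree) : (g.map φ).discr = φ g.discr := by
  have h1 := resultant_deriv hg0
  have hg0' : 0 < (g.map φ).degree := by rwa [degree_map]
  have h2 := resultant_deriv hg0'
  rw [derivative_map, resultant_map_map, natDegree_map, h1, (hg.map φ).leadingCoeff,
    hg.leadingCoeff, mul_one, mul_one, map_mul, map_pow, map_neg, map_one] at h2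
  have h6 : ((-1 : F) ^ (g.natDegree * (g.natDegree - 1) / 2)) ≠ 0 := pow_ne_zero _ (by simp)
  exact (mul_left_cancel₀ h6 h2).symm

end discr

section odd

variable {L : Type} [Field L] [NumberField L] [IsGalois ℚ L]
variable {ι : Type} [Fintype ι] {E : ι → Type} [∀ i, Field (E i)] [∀ i, NumberField (E i)]

/-- the value of an embedding at the chosen elements -/
def valEmb (α : ∀ i, E i) (x : Emb L E) : L := x.2 (α x.1)

lemma valEmb_smul (α : ∀ i, E i) (γ : L ≃ₐ[ℚ] L) (x : Emb L E) :
    valEmb α (γ • x) = γ (valEmb α x) := rfl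

lemma mem_of_fixed (K : IntermediateField ℚ L) (y : L)
    (h : ∀ γ ∈ K.fixingSubgroup, γ y = y) : y ∈ K := by
  rw [← IsGalois.fixedField_fixingSubgroup K]
  intro γ
  exact h γ.1 γ.2

/-- If the discriminant of the polynomial of every nonempty stable set of embeddings is not a square
then some element acts as an odd permutation. -/
theorem exists_odd_of_discr (K : IntermediateField ℚ L) (α : ∀ i, E i) (f : ℚ[X])
    (hf : f.map (algebraMap ℚ L) = ∏ x : Emb L E, (X - C (valEmb α x)))
    (hdisc : ∀ g : K[X], g.Monic → g ≠ 1 → g ∣ f.map (algebraMap ℚ K) → ¬ IsSquare g.discr)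
    (Z : SubMulAction K.fixingSubgroup (Emb L E)) (dZ : DecidableEq Z) (fZ : Fintype Z)
    (hZ : (Z : Set (Emb L E)).Nonempty) :
    ∃ γ : K.fixingSubgroup, Equiv.Perm.sign (MulAction.toPerm γ : Equiv.Perm Z) = -1 := by
  classical
  by_contra hcon
  have hsign : ∀ γ : K.fixingSubgroup,
      Equiv.Perm.sign (MulAction.toPerm γ : Equiv.Perm Z) = 1 := by
    intro γ
    rcases Int.units_eq_one_or (Equiv.Perm.sign (MulAction.toPerm γ : Equiv.Perm Z)) with h | h
    · exact h
    · exact absurd ⟨γ, h⟩ hcon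
  set n := Fintype.card Z with hn
  let e : Fin n ≃ Z := (Fintype.equivFin Z).symm
  have hn0 : 0 < n := by
    obtain ⟨z, hz⟩ := hZ
    exact Fintype.card_pos_iff.mpr ⟨⟨z, hz⟩⟩
  let r : Fin n → L := fun k => valEmb α (e k).1
  let π : K.fixingSubgroup → Equiv.Perm (Fin n) := fun γ =>
    (e.trans (MulAction.toPerm γ)).trans e.symm
  have hπ : ∀ (γ : K.fixingSubgroup) (k : Fin n), (γ : L ≃ₐ[ℚ] L) (r k) = r (π γ k) := by
    intro γ k
    change (γ : L ≃ₐ[ℚ] L) (valEmb α (e k).1) = valEmb α (e (e.symm (γ • e k))).1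
    rw [Equiv.apply_symm_apply]
    rfl
  have hsπ : ∀ γ, Equiv.Perm.sign (π γ) = 1 := by
    intro γ
    rw [← hsign γ]
    exact Equiv.Perm.sign_eq_sign_of_equiv _ _ e fun k => by simp [π]
  set g0 : L[X] := ∏ k, (X - C (r k)) with hg0
  have hfix : ∀ γ : K.fixingSubgroup, g0.map ((γ : L ≃ₐ[ℚ] L) : L →+* L) = g0 := by
    intro γ
    rw [hg0, Polynomial.map_prod]
    have e1 : ∀ k, ((X - C (r k)).map ((γ : L ≃ₐ[ℚ] L) : L →+* L)) = X - C (r (π γ k)) := by
      intro k
      rw [Polynomial.map_sub, map_X, map_C, ← hπ γ k]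
      rfl
    rw [Finset.prod_congr rfl fun k _ => e1 k]
    exact Equiv.prod_comp (π γ) fun k => X - C (r k)
  have hlift : g0 ∈ Polynomial.lifts (algebraMap K L) := by
    rw [Polynomial.lifts_iff_coeff_lifts]
    intro m
    refine ⟨⟨g0.coeff m, mem_of_fixed K _ fun γ hγ => ?_⟩, rfl⟩
    have := congrArg (fun q => q.coeff m) (hfix ⟨γ, hγ⟩)
    simpa using this
  obtain ⟨g, hg⟩ := (Polynomial.mem_lifts g0).mp hlift
  have hinj : Function.Injective (algebraMap K L) := (algebraMap K L).injective
  have hmon0 : g0.Monic := monic_prod_X_sub_C r _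
  have hmon : g.Monic := by
    apply Polynomial.monic_of_injective hinj
    rw [hg]
    exact hmon0
  have hdeg : g.natDegree = n := by
    rw [← natDegree_map (algebraMap K L), hg, hg0, natDegree_finsetProd_X_sub_C_eq_card,
      Finset.card_univ, Fintype.card_fin]
  have hdeg0 : 0 < g.degree := by
    rw [← natDegree_pos_iff_degree_pos, hdeg]
    exact hn0
  have hne1 : g ≠ 1 := by
    rintro rfl
    rw [natDegree_one] at hdeg
    omega
  have hdvd : g ∣ f.map (algebraMap ℚ K) := by
    rw [← Polynomial.map_dvd_map (algebraMap K L) hinj hmon, hg, Polynomial.map_map,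
      ← IsScalarTower.algebraMap_eq, hf]
    have e1 : g0 = ∏ x ∈ (Finset.univ.filter fun x : Emb L E => x ∈ Z), (X - C (valEmb α x)) := by
      rw [hg0]
      change ∏ k, (X - C (valEmb α (e k).1)) = _
      rw [Equiv.prod_comp e fun z : Z => X - C (valEmb α z.1)]
      exact (Finset.prod_subtype (p := fun x => x ∈ Z) _ (fun x => by simp)
        (fun x => X - C (valEmb α x))).symm
    rw [e1]
    exact Finset.prod_dvd_prod_of_subset _ _ _ (Finset.subset_univ _)
  apply hdisc g hmon hne1 hdvd
  -- the square root of the discriminant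
  set δ := (Matrix.vandermonde r).det with hδ
  have hδK : δ ∈ K := by
    refine mem_of_fixed K _ fun γ hγ => ?_
    have e1 : γ δ = (Matrix.vandermonde fun k => γ (r k)).det := by
      rw [hδ, AlgEquiv.map_det]
      congr 1
      ext i j
      simp [Matrix.vandermonde]
    have e2 : (Matrix.vandermonde fun k => γ (r k))
        = (Matrix.vandermonde r).submatrix (π ⟨γ, hγ⟩) id := by
      ext i j
      simp only [Matrix.vandermonde, Matrix.of_apply, Matrix.submatrix_apply, id]
      rw [← hπ ⟨γ, hγ⟩ i]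
    rw [e1, e2, Matrix.det_permute, hsπ]
    simp [hδ]
  refine ⟨⟨δ, hδK⟩, ?_⟩
  apply hinj
  rw [← discr_map_monic (algebraMap K L) hmon hdeg0, hg, hg0, discr_prod_X_sub_C hn0 r, pow_two]
  rfl

open scoped IntermediateField in
/-- the minimal polynomial of a primitive element -/
theorem minpoly_map_eq {E : Type} [Field E] [NumberField E] [h : Nonempty (E →ₐ[ℚ] L)] (a : E)
    (ha : ℚ⟮a⟯ = ⊤) : (minpoly ℚ a).map (algebraMap ℚ L) = ∏ φ : E →ₐ[ℚ] L, (X - C (φ a)) := by
  classical
  obtain ⟨φ0⟩ := h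
  have hsp := splits_of_emb φ0
  have hinj : Function.Injective fun φ : E →ₐ[ℚ] L => φ a :=
    (Field.primitive_element_iff_algHom_eq_of_eval' ℚ L hsp a).mp ha
  have hdeg : (minpoly ℚ a).natDegree = Module.finrank ℚ E :=
    (Field.primitive_element_iff_minpoly_natDegree_eq ℚ a).mp ha
  have hmon : ((minpoly ℚ a).map (algebraMap ℚ L)).Monic :=
    (minpoly.monic (IsIntegral.of_finite ℚ a)).map _
  have hdvd : (∏ φ : E →ₐ[ℚ] L, (X - C (φ a))) ∣ (minpoly ℚ a).map (algebraMap ℚ L) := by
    have e1 : (∏ φ : E →ₐ[ℚ] L, (X - C (φ a)))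
        = ((Finset.univ.val.map fun φ : E →ₐ[ℚ] L => φ a).map fun y => X - C y).prod := by
      rw [Multiset.map_map]
      rfl
    rw [e1, Multiset.prod_X_sub_C_dvd_iff_le_roots hmon.ne_zero,
      Multiset.le_iff_subset (Finset.univ.nodup.map hinj)]
    intro y hy
    obtain ⟨φ, -, rfl⟩ := Multiset.mem_map.mp hy
    rw [mem_roots hmon.ne_zero, IsRoot.def, eval_map_algebraMap, aeval_algHom_apply,
      minpoly.aeval, map_zero]
  refine eq_of_monic_of_dvd_of_natDegree_le (monic_prod_X_sub_C _ _) hmon hdvd ?_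
  rw [natDegree_map, hdeg, natDegree_finsetProd_X_sub_C_eq_card, Finset.card_univ,
    AlgHom.card_of_splits ℚ E L hsp]

open scoped IntermediateField in
theorem prod_minpoly_map_eq [∀ i, Nonempty (E i →ₐ[ℚ] L)] (α : ∀ i, E i) (hα : ∀ i, ℚ⟮α i⟯ = ⊤) :
    (∏ i, minpoly ℚ (α i)).map (algebraMap ℚ L) = ∏ x : Emb L E, (X - C (valEmb α x)) := by
  rw [Polynomial.map_prod, Fintype.prod_sigma]
  exact Finset.prod_congr rfl fun i _ => minpoly_map_eq (α i) (hα i)

end odd

section main

open NumberField

open scoped IntermediateField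

variable {L : Type} [Field L] [NumberField L] [IsGalois ℚ L] [IsCMField L]
variable {ι : Type} [Fintype ι] {E : ι → Type} [∀ i, Field (E i)] [∀ i, NumberField (E i)]
  [∀ i, IsCMField (E i)] [∀ i, Nonempty (E i →ₐ[ℚ] L)]

lemma conj_mem_fixingSubgroup (K : IntermediateField ℚ L) [IsTotallyReal K] :
    conj L ∈ K.fixingSubgroup := by
  rw [IntermediateField.mem_fixingSubgroup_iff]
  intro x hx
  rw [conj_apply, IsCMField.complexConj_eq_self_iff]
  have : IsTotallyReal K.toSubfield := ‹IsTotallyReal K›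
  exact IsTotallyReal.le_maximalRealSubfield K.toSubfield hx

end main

end Pool.Agent.Lib.MP_938ce2_ag_h60
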