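import Mathlib
import Pool.Agent.Lib.MP_938ce2_ag_h60.GDefs
import Pool.Agent.Lib.MP_938ce2_ag_h60.NumField
import Pool.Agent.Lib.MP_938ce2_ag_h60.Disc

/-!
Tate classes on products of powers of abelian varieties with complex multiplication: a criterion, in
terms of discriminants, for all CM types on a CM algebra at once.
-/

set_option autoImplicit false

namespace Pool.Agent.Lib.MP_938ce2_ag_h60.CandidateDiscriminantCriterion

open Polynomial NumberField Pool.Agent.Lib.MP_938ce2_ag_h60

open scoped IntermediateField

/-- `E i` are CM fields, `E i = ℚ(α i)`, and `L` is a Galois CM field containing copies of all of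
them. `K` is a totally real subfield of `L` such that `[L : K]` is a power of two (for example the
fixed field of a Sylow subgroup). If no monic polynomial other than `1` with coefficients in `K` which
divides the product of the minimal polynomials of the `α i` has a discriminant which is a square in
`K`, then for every CM type on the CM algebra `∏ i, E i` the Tate classes are generated by those of
codimension one. -/
theorem result (L : Type) [Field L] [NumberField L] [IsGalois ℚ L] [IsCMField L]
    {ι : Type} [Fintype ι] (E : ι → Type) [∀ i, Field (E i)] [∀ i, NumberField (E i)]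
    [∀ i, IsCMField (E i)] [∀ i, Nonempty (E i →ₐ[ℚ] L)]
    (α : ∀ i, E i) (hα : ∀ i, ℚ⟮α i⟯ = ⊤)
    (K : IntermediateField ℚ L) [IsTotallyReal K] {k : ℕ} (hK : Module.finrank K L = 2 ^ k)
    (hdisc : ∀ g : K[X], g.Monic → g ≠ 1 →
      g ∣ (∏ i, minpoly ℚ (α i)).map (algebraMap ℚ K) → ¬ IsSquare g.discr)
    (Φ : Finset (Emb L E)) (hΦ : CMType (conj L) Φ) :
    GeneratedByDivisors (L ≃ₐ[ℚ] L) Φ := by
  classical
  have hcx : ∀ x : Emb L E, conj L • x ≠ x := conj_smul_ne'
  refine generatedByDivisors_of_nondeg conj_comm conj_mul_self hcx hΦ ?_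
  refine nondeg_of_signs conj_comm conj_mul_self K.fixingSubgroup ?_
    (conj_mem_fixingSubgroup K) ?_ hΦ
  · apply IsPGroup.of_card (n := k)
    rw [IsGalois.card_fixingSubgroup_eq_finrank, hK]
  · intro Z hZ
    exact exists_odd_of_discr K α _ (prod_minpoly_map_eq α hα) hdisc Z _ _ hZ

end Pool.Agent.Lib.MP_938ce2_ag_h60.CandidateDiscriminantCriterion
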