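import Mathlib
import Pool.Agent.Lib.MP_938ce2_ag_h85.Main

/-!
CM types over abelian CM fields whose Galois group has at least eight elements of order at most
two: a mod 2 criterion of nondegeneracy.
-/

set_option autoImplicit false

namespace Pool.Agent.Lib.MP_938ce2_ag_h60

open Pool.Agent.Lib.MP_938ce2_ag_h85

/-! ### Reduction of character values at a place above two -/

/-- algebraic integers -/
abbrev OO : Type := integralClosure ℤ ℂ

lemma two_not_unit : ¬ IsUnit (2 : OO) := by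
  intro h
  obtain ⟨u, hu⟩ := h
  have h1 : ((u⁻¹ : OOˣ) : OO) * 2 = 1 := by rw [← hu]; simp
  have h2 : (((u⁻¹ : OOˣ) : OO) : ℂ) * 2 = 1 := by
    have := congrArg (fun z : OO => (z : ℂ)) h1
    exact this
  have h3 : IsIntegral ℤ (((1 / 2 : ℚ) : ℂ)) := by
    have h4 : (((u⁻¹ : OOˣ) : OO) : ℂ) = ((1 / 2 : ℚ) : ℂ) := by
      push_cast
      rw [eq_div_iff (by norm_num)]
      exact h2
    rw [← h4]
    exact ((u⁻¹ : OOˣ) : OO).2
  have h5 : IsIntegral ℤ (1 / 2 : ℚ) := by
    have h6 : IsIntegral ℤ (algebraMap ℚ ℂ (1 / 2 : ℚ)) := h3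
    exact (isIntegral_algebraMap_iff (algebraMap ℚ ℂ).injective).mp h6
  obtain ⟨n, hn⟩ := IsIntegrallyClosed.isIntegral_iff.mp h5
  have h7 : (n : ℚ) = 1 / 2 := by simpa using hn
  have h8 : (2 * n : ℚ) = 1 := by rw [h7]; norm_num
  have h9 : 2 * n = 1 := by exact_mod_cast h8
  omega

/-- There is a ring homomorphism from the algebraic integers to a field of characteristic two. -/
lemma exists_reduction : ∃ (k : Type) (_ : Field k) (_ : CharP k 2), Nonempty (OO →+* k) := by
  have h1 : Ideal.span {(2 : OO)} ≠ ⊤ := by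
    intro h
    exact two_not_unit (Ideal.span_singleton_eq_top.mp h)
  obtain ⟨m, hm, hle⟩ := Ideal.exists_le_maximal _ h1
  let _ : Field (OO ⧸ m) := Ideal.Quotient.field m
  refine ⟨OO ⧸ m, inferInstance, ?_, ⟨Ideal.Quotient.mk m⟩⟩
  apply CharTwo.of_one_ne_zero_of_two_eq_zero one_ne_zero
  have h2 : (Ideal.Quotient.mk m) (2 : OO) = 0 :=
    Ideal.Quotient.eq_zero_iff_mem.mpr (hle (Ideal.subset_span rfl))
  exact h2

section

variable {G : Type} [AddCommGroup G] [Fintype G] {ι : G}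

lemma char_integral (χ : AddChar G ℂ) (x : G) : IsIntegral ℤ (χ x) :=
  IsIntegral.of_pow (cord_pos χ) (by rw [cord_pow]; exact isIntegral_one)

/-- the values of a character as algebraic integers -/
noncomputable def cv (χ : AddChar G ℂ) (x : G) : OO := ⟨χ x, char_integral χ x⟩

lemma cv_add (χ : AddChar G ℂ) (x y : G) : cv χ (x + y) = cv χ x * cv χ y :=
  Subtype.ext (AddChar.map_add_eq_mul χ x y)

lemma cv_eq_one {χ : AddChar G ℂ} {x : G} (h : χ x = 1) : cv χ x = 1 := Subtype.ext h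

lemma cv_eq_neg_one {χ : AddChar G ℂ} {x : G} (h : χ x = -1) : cv χ x = -1 := Subtype.ext h

/-! ### The CM types attached to odd characters -/

/-- the upper half of the punctured plane -/
def upper (z : ℂ) : Prop := 0 < z.im ∨ (z.im = 0 ∧ 0 < z.re)

lemma upper_neg {z : ℂ} (hz : z ≠ 0) : upper (-z) ↔ ¬ upper z := by
  unfold upper
  simp only [Complex.neg_im, Complex.neg_re, not_or, not_and, not_lt]
  have hz' : z.im = 0 → z.re ≠ 0 := fun h h' => hz (Complex.ext h' h)
  constructor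
  · rintro (h | ⟨h, h'⟩)
    · exact ⟨by linarith, fun h2 => by linarith⟩
    · exact ⟨by linarith, fun _ => by linarith⟩
  · rintro ⟨h, h'⟩
    rcases lt_or_eq_of_le h with h2 | h2
    · left; linarith
    · right
      refine ⟨by linarith, ?_⟩
      have := h' h2
      have h3 := hz' h2
      rcases lt_or_eq_of_le this with h4 | h4
      · linarith
      · exact absurd h4 h3

open Classical in
/-- the embeddings at which the character lies in the upper half plane -/
noncomputable def half (χ : AddChar G ℂ) : Finset G := Finset.univ.filter fun x => upper (χ x)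

lemma mem_half {χ : AddChar G ℂ} {x : G} : x ∈ half χ ↔ upper (χ x) := by simp [half]

lemma chi_ne_zero (χ : AddChar G ℂ) (x : G) : χ x ≠ 0 := by
  classical
  exact char_ne_zero χ x

lemma half_cm {χ : AddChar G ℂ} (hχ : χ ι = -1) : IsCMType ι (half χ) := by
  intro x
  rw [mem_half, mem_half, AddChar.map_add_eq_mul, hχ, mul_neg_one, upper_neg (chi_ne_zero χ x),
    not_not]

lemma half_inv {χ : AddChar G ℂ} {y : G} (hy : χ y = 1) (x : G) :
    x + y ∈ half χ ↔ x ∈ half χ := by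
  rw [mem_half, mem_half, AddChar.map_add_eq_mul, hy, mul_one]

/-! ### Combinatorics of CM types -/

omit [Fintype G] in
/-- passing from one CM type to another -/
lemma sum_cm_sub [DecidableEq G] {T Φ : Finset G} (hT : IsCMType ι T) (hΦ : IsCMType ι Φ)
    {R : Type} [CommRing R] (f : G → R) (hf : ∀ x, f (x + ι) = - f x) (hι2 : ι + ι = 0) :
    ∑ x ∈ Φ, f x = ∑ x ∈ T, f x - 2 * ∑ x ∈ T \ Φ, f x := by
  have h1 : ∑ x ∈ Φ \ T, f x = - ∑ x ∈ T \ Φ, f x := by
    rw [← Finset.sum_neg_distrib]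
    refine Finset.sum_nbij' (fun x => x + ι) (fun x => x + ι) ?_ ?_ ?_ ?_ ?_
    · intro x hx
      rw [Finset.mem_sdiff] at hx ⊢
      refine ⟨?_, (hΦ x).mp hx.1⟩
      by_contra h
      exact hx.2 ((hT x).mpr h)
    · intro x hx
      rw [Finset.mem_sdiff] at hx ⊢
      refine ⟨?_, (hT x).mp hx.1⟩
      by_contra h
      exact hx.2 ((hΦ x).mpr h)
    · intro x _; rw [add_assoc, hι2, add_zero]
    · intro x _; rw [add_assoc, hι2, add_zero]
    · intro x _; rw [hf, neg_neg]
  have h2 := Finset.sum_inter_add_sum_sdiff Φ T f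
  have h3 := Finset.sum_inter_add_sum_sdiff T Φ f
  rw [Finset.inter_comm] at h3
  rw [← h2, ← h3, h1]
  ring

omit [Fintype G] in
/-- three CM types -/
lemma sum_cm_triangle [DecidableEq G] {T Φ0 Φ : Finset G} (hT : IsCMType ι T)
    (hΦ0 : IsCMType ι Φ0) (hΦ : IsCMType ι Φ)
    {R : Type} [CommRing R] (f : G → R) (hf : ∀ x, f (x + ι) = f x) (hι2 : ι + ι = 0) :
    ∑ x ∈ T \ Φ, f x + ∑ x ∈ Φ0 \ Φ, f x
      = ∑ x ∈ T \ Φ0, f x + 2 * ∑ x ∈ (T ∩ Φ0) \ Φ, f x := by
  have h1 : ∑ x ∈ (Φ0 \ Φ) \ T, f x = ∑ x ∈ (T \ Φ0) ∩ Φ, f x := by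
    refine Finset.sum_nbij' (fun x => x + ι) (fun x => x + ι) ?_ ?_ ?_ ?_ ?_
    · intro x hx
      rw [Finset.mem_sdiff, Finset.mem_sdiff] at hx
      rw [Finset.mem_inter, Finset.mem_sdiff]
      refine ⟨⟨?_, (hΦ0 x).mp hx.1.1⟩, ?_⟩
      · by_contra h; exact hx.2 ((hT x).mpr h)
      · by_contra h; exact hx.1.2 ((hΦ x).mpr h)
    · intro x hx
      rw [Finset.mem_inter, Finset.mem_sdiff] at hx
      rw [Finset.mem_sdiff, Finset.mem_sdiff]
      refine ⟨⟨?_, (hΦ x).mp hx.2⟩, (hT x).mp hx.1.1⟩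
      by_contra h; exact hx.1.2 ((hΦ0 x).mpr h)
    · intro x _; rw [add_assoc, hι2, add_zero]
    · intro x _; rw [add_assoc, hι2, add_zero]
    · intro x _; rw [hf]
  have h2 := Finset.sum_inter_add_sum_sdiff (T \ Φ) Φ0 f
  have h3 := Finset.sum_inter_add_sum_sdiff (Φ0 \ Φ) T f
  have h4 := Finset.sum_inter_add_sum_sdiff (T \ Φ0) Φ f
  have e1 : (T \ Φ) ∩ Φ0 = (T ∩ Φ0) \ Φ := by
    ext x; simp only [Finset.mem_inter, Finset.mem_sdiff]; tauto
  have e2 : (Φ0 \ Φ) ∩ T = (T ∩ Φ0) \ Φ := by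
    ext x; simp only [Finset.mem_inter, Finset.mem_sdiff]; tauto
  have e3 : (T \ Φ0) \ Φ = (T \ Φ) \ Φ0 := by
    ext x; simp only [Finset.mem_sdiff]; tauto
  rw [e1] at h2
  rw [e2] at h3
  rw [e3] at h4
  rw [← h2, ← h3, ← h4, h1]
  ring

/-! ### Elements of order two -/

/-- the elements of order at most two -/
def two (G : Type) [AddCommGroup G] : AddSubgroup G where
  carrier := {x | x + x = 0}
  add_mem' := by
    intro a b ha hb
    change a + b + (a + b) = 0
    have ha' : a + a = 0 := ha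
    have hb' : b + b = 0 := hb
    calc a + b + (a + b) = (a + a) + (b + b) := by abel
      _ = 0 := by rw [ha', hb', add_zero]
  zero_mem' := add_zero 0
  neg_mem' := by
    intro a ha
    change -a + -a = 0
    have ha' : a + a = 0 := ha
    rw [← neg_add, ha', neg_zero]

omit [Fintype G] in
lemma mem_two {x : G} : x ∈ two G ↔ x + x = 0 := Iff.rfl

lemma card_le_two_mul (W : AddSubgroup G) (hW : W ≤ two G) (χ : AddChar G ℂ) :
    Nat.card W ≤ 2 * Nat.card (W ⊓ kerChar χ : AddSubgroup G) := by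
  classical
  have hval : ∀ x ∈ W, χ x = 1 ∨ χ x = -1 := by
    intro x hx
    have h : χ x * χ x = 1 := by
      rw [← AddChar.map_add_eq_mul, mem_two.mp (hW hx), AddChar.map_zero_eq_one]
    exact mul_self_eq_one_iff.mp h
  by_cases hall : ∀ x ∈ W, χ x = 1
  · have : W ⊓ kerChar χ = W := inf_eq_left.mpr fun x hx => hall x hx
    rw [this]; omega
  · push Not at hall
    obtain ⟨x0, hx0, hx1⟩ := hall
    have hx2 : χ x0 = -1 := (hval x0 hx0).resolve_left hx1
    let f : W → Bool × (W ⊓ kerChar χ : AddSubgroup G) := fun x =>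
      if h : χ x.1 = 1 then (true, ⟨x.1, x.2, h⟩)
      else (false, ⟨x.1 + x0, W.add_mem x.2 hx0, by
        change χ (x.1 + x0) = 1
        rw [AddChar.map_add_eq_mul, hx2, (hval x.1 x.2).resolve_left h]; norm_num⟩)
    have hf : Function.Injective f := by
      intro x y hxy
      simp only [f] at hxy
      split_ifs at hxy with h1 h2 h2
      · rw [Prod.mk.injEq] at hxy
        exact Subtype.ext (congrArg (fun z : (W ⊓ kerChar χ : AddSubgroup G) => (z : G)) hxy.2)
      · rw [Prod.mk.injEq] at hxy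
        exact absurd hxy.1 (by decide)
      · rw [Prod.mk.injEq] at hxy
        exact absurd hxy.1 (by decide)
      · rw [Prod.mk.injEq] at hxy
        have h3 := congrArg (fun z : (W ⊓ kerChar χ : AddSubgroup G) => (z : G)) hxy.2
        have h4 : x.1 + x0 = y.1 + x0 := h3
        exact Subtype.ext (add_right_cancel h4)
    have h5 := Nat.card_le_card_of_injective f hf
    rw [Nat.card_prod, Nat.card_eq_fintype_card (α := Bool), Fintype.card_bool] at h5
    exact h5

lemma card_two_pow (W : AddSubgroup G) (hW : W ≤ two G) : ∃ n, Nat.card W = 2 ^ n := by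
  have h1 : IsPGroup 2 (Multiplicative W) := by
    intro x
    refine ⟨1, ?_⟩
    rw [pow_one, pow_two]
    have h2 : (Multiplicative.toAdd x).1 + (Multiplicative.toAdd x).1 = 0 :=
      mem_two.mp (hW (Multiplicative.toAdd x).2)
    exact congrArg Multiplicative.ofAdd (Subtype.ext h2)
  obtain ⟨n, hn⟩ := IsPGroup.iff_card.mp h1
  exact ⟨n, hn⟩

lemma four_dvd_fib [DecidableEq G] (h8 : 8 ≤ Nat.card (two G)) (χ : AddChar G ℂ) :
    4 ∣ (fib χ 1).card := by
  have h1 := card_le_two_mul (two G) le_rfl χ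
  obtain ⟨n, hn⟩ := card_two_pow (two G ⊓ kerChar χ) inf_le_left
  have h2 : 4 ≤ 2 ^ n := by rw [← hn]; omega
  have h3 : 2 ≤ n := by
    by_contra h
    have : n ≤ 1 := by omega
    interval_cases n <;> omega
  have h4 : 4 ∣ Nat.card (two G ⊓ kerChar χ : AddSubgroup G) := by
    rw [hn]; exact pow_dvd_pow 2 h3
  have h5 : Nat.card (two G ⊓ kerChar χ : AddSubgroup G) ∣ Nat.card (kerChar χ) :=
    AddSubgroup.card_dvd_of_le inf_le_right
  rw [← card_kerChar]
  exact h4.trans h5

lemma exists_common (h8 : 8 ≤ Nat.card (two G)) (χ χ' : AddChar G ℂ) :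
    ∃ y : G, y ≠ 0 ∧ y + y = 0 ∧ χ y = 1 ∧ χ' y = 1 := by
  have h1 := card_le_two_mul (two G) le_rfl χ
  have h2 := card_le_two_mul (two G ⊓ kerChar χ) inf_le_left χ'
  have h3 : 1 < Nat.card ((two G ⊓ kerChar χ) ⊓ kerChar χ' : AddSubgroup G) := by omega
  have h4 : Nontrivial ((two G ⊓ kerChar χ) ⊓ kerChar χ' : AddSubgroup G) :=
    (Finite.one_lt_card_iff_nontrivial).mp h3
  obtain ⟨⟨y, hy⟩, hne⟩ := exists_ne (0 : ((two G ⊓ kerChar χ) ⊓ kerChar χ' : AddSubgroup G))
  exact ⟨y, fun h => hne (Subtype.ext h), hy.1.1, hy.1.2, hy.2⟩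

/-! ### The criterion -/

theorem nonvanishing [DecidableEq G] (hι2 : ι + ι = 0) (h8 : 8 ≤ Nat.card (two G))
    {χ0 χ : AddChar G ℂ} (hχ0 : χ0 ι = -1) (hχ : χ ι = -1) {Φ : Finset G} (hΦ : IsCMType ι Φ)
    (hu : IsUnit (∑ x ∈ half χ0 \ Φ, AddMonoidAlgebra.single x (1 : ZMod 2))) :
    ∑ φ ∈ Φ, χ φ ≠ 0 := by
  intro h0
  obtain ⟨k, fk, ck, ⟨ρ⟩⟩ := exists_reduction
  let r : G → k := fun x => ρ (cv χ x)
  have r_add : ∀ x y, r (x + y) = r x * r y := fun x y => by
    change ρ _ = _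
    rw [cv_add, map_mul]
  have r_iota : r ι = 1 := by
    change ρ _ = _
    rw [cv_eq_neg_one hχ, map_neg, map_one, CharTwo.neg_eq]
  have r_one : ∀ y, χ y = 1 → r y = 1 := fun y hy => by
    change ρ _ = _
    rw [cv_eq_one hy, map_one]
  set T := half χ with hT
  have hTcm : IsCMType ι T := half_cm hχ
  have hΦ0cm : IsCMType ι (half χ0) := half_cm hχ0
  -- the sum over `T` is divisible by four
  have h1 : ∃ Y : OO, ∑ x ∈ T, cv χ x = 4 * Y := by
    obtain ⟨c, hc⟩ := four_dvd_fib h8 χ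
    have h2 : ∑ x ∈ T, cv χ x = ∑ z ∈ T.image (cv χ), (4 * c : OO) * z := by
      rw [← Finset.sum_fiberwise_of_maps_to' (s := T) (t := T.image (cv χ)) (g := cv χ)
        (fun x hx => Finset.mem_image_of_mem _ hx) (fun z => z)]
      refine Finset.sum_congr rfl fun z hz => ?_
      obtain ⟨x0, hx0, rfl⟩ := Finset.mem_image.mp hz
      rw [Finset.sum_const, nsmul_eq_mul]
      congr 1
      have h3 : (T.filter fun x => cv χ x = cv χ x0) = fib χ (χ x0) := by
        ext x
        rw [Finset.mem_filter, mem_fib]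
        constructor
        · rintro ⟨-, h4⟩
          exact congrArg Subtype.val h4
        · intro h4
          refine ⟨?_, Subtype.ext h4⟩
          rw [hT, mem_half] at hx0 ⊢
          rwa [h4]
      rw [h3, fib_card, hc]
      push_cast
      ring
    refine ⟨∑ z ∈ T.image (cv χ), (c : OO) * z, ?_⟩
    rw [h2, Finset.mul_sum]
    exact Finset.sum_congr rfl fun z _ => by ring
  obtain ⟨Y, hY⟩ := h1
  -- `E = 2 Y`
  have h2 : ∑ x ∈ T \ Φ, cv χ x = 2 * Y := by
    have h3 := sum_cm_sub hTcm hΦ (fun x => χ x)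
      (fun x => by rw [AddChar.map_add_eq_mul, hχ]; ring) hι2
    rw [h0] at h3
    have h4 : ∑ x ∈ T, cv χ x = 2 * ∑ x ∈ T \ Φ, cv χ x := by
      apply Subtype.ext
      have e1 : ((∑ x ∈ T, cv χ x : OO) : ℂ) = ∑ x ∈ T, χ x := by
        rw [AddSubmonoidClass.coe_finsetSum]; rfl
      have e2 : ((2 * ∑ x ∈ T \ Φ, cv χ x : OO) : ℂ) = 2 * ∑ x ∈ T \ Φ, χ x := by
        change ((2 : OO) : ℂ) * ((∑ x ∈ T \ Φ, cv χ x : OO) : ℂ) = _
        rw [AddSubmonoidClass.coe_finsetSum]; rfl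
      rw [e1, e2]
      linear_combination -h3
    rw [hY] at h4
    have h5 : (2 : OO) * (2 * Y) = 2 * ∑ x ∈ T \ Φ, cv χ x := by rw [← h4]; ring
    have h6 : (2 : OO) ≠ 0 := by
      intro h
      have := congrArg Subtype.val h
      have h7 : (2 : ℂ) = 0 := this
      norm_num at h7
    exact (mul_left_cancel₀ h6 h5).symm
  have h3 : ∑ x ∈ T \ Φ, r x = 0 := by
    have h4 : ∑ x ∈ T \ Φ, r x = ρ (∑ x ∈ T \ Φ, cv χ x) := by rw [map_sum]
    rw [h4, h2, map_mul, map_ofNat, CharTwo.two_eq_zero, zero_mul]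
  -- comparison with `half χ0`
  have h4 := sum_cm_triangle hTcm hΦ0cm hΦ r
    (fun x => by rw [r_add, r_iota, mul_one]) hι2
  rw [h3, zero_add, CharTwo.two_eq_zero, zero_mul, add_zero] at h4
  obtain ⟨y, hy0, hy2, hy, hy'⟩ := exists_common h8 χ χ0
  have h5 : ∑ x ∈ T \ half χ0, r x = 0 := by
    refine Finset.sum_involution (fun x _ => x + y) ?_ ?_ ?_ ?_
    · intro x _
      rw [r_add, r_one y hy, mul_one, CharTwo.add_self_eq_zero]
    · intro x _ _ h
      exact hy0 (by simpa using h)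
    · intro x hx
      rw [Finset.mem_sdiff] at hx ⊢
      rw [hT, half_inv hy, half_inv hy']
      exact hx
    · intro x _
      rw [add_assoc, hy2, add_zero]
  rw [h5] at h4
  -- the ring homomorphism `F₂[G] → k`
  let g : Multiplicative G →* k :=
    { toFun := fun x => r (Multiplicative.toAdd x)
      map_one' := r_one 0 (AddChar.map_zero_eq_one χ)
      map_mul' := fun x y => r_add _ _ }
  let L : AddMonoidAlgebra (ZMod 2) G →+* k :=
    AddMonoidAlgebra.liftNCRingHom (ZMod.castHom (dvd_refl 2) k) g (fun _ _ => Commute.all _ _)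
  have h6 : L (∑ x ∈ half χ0 \ Φ, AddMonoidAlgebra.single x (1 : ZMod 2)) = 0 := by
    rw [map_sum, ← h4]
    refine Finset.sum_congr rfl fun x _ => ?_
    change AddMonoidAlgebra.liftNC _ _ (AddMonoidAlgebra.single x (1 : ZMod 2)) = _
    rw [AddMonoidAlgebra.liftNC_single]
    simp [g]
  have h7 := hu.map L
  rw [h6] at h7
  exact not_isUnit_zero h7

end

end Pool.Agent.Lib.MP_938ce2_ag_h60
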